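import Pool.Agent.V8H8.TC.Asym
import Pool.Agent.V8H8.TC.Pair

/-!
# Admissible triples with a small `H (abc)`: the constant `4.3`

`H (n) = γ (n) / (log γ (n)) ^ ω (n)`. For every `K ≤ 4.3` there are infinitely many admissible
triples with `c > H exp (K log H / log log H)`, `H = max (H (abc), e ^ e)`.

The numbers `∏ p ^ x_p` over the odd primes `p ≤ 1000 y`, with `x_p ∈ {0, 1}` for `p ≤ 2.1 y` and
`x_p ∈ {0, 1, 2}` for the other primes, are divided into classes by `∑ x_p`, by the size of the
weight `∑_{p > 2.1 y} 2 log (p / y) (x_p - 1)²` and by their residue modulo `2 ^ m`. A partition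
function shows that some class is large for a large `m`, and averaging over the pairs of the class
bounds `∑ log⁺ (p / y) (x_p - x'_p)²` for some pair. The triple is given by the quotient of the
two numbers.
-/

set_option autoImplicit false

namespace Pool.Agent.Results.MP_14cf73_nt.ExponentPigeonhole

open Filter Topology

/-- `γ(n)`, the product of the primes dividing `n` -/
def radical (n : ℕ) : ℕ := ∏ p ∈ n.primeFactors, p

/-- `ω(n)`, the number of primes dividing `n` -/
def omega (n : ℕ) : ℕ := n.primeFactors.card

/-- `H(n) = γ(n) / (log γ(n)) ^ ω(n)` -/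
noncomputable def H (n : ℕ) : ℝ := (radical n : ℝ) / Real.log (radical n : ℝ) ^ omega n

/-- `max (H(n), e ^ e)` -/
noncomputable def H' (n : ℕ) : ℝ := max (H n) (Real.exp (Real.exp 1))

/-- **The constant `4.3`.** For every `K ≤ 4.3` and every `X` there is an admissible triple with
`c > X` and `c > H exp (K log H / log log H)` where `H = max (H(abc), e ^ e)`. -/
theorem result (K : ℝ) (hK : K ≤ 43 / 10) (X : ℝ) :
    ∃ a b c : ℕ, 0 < a ∧ 0 < b ∧ a + b = c ∧ Nat.Coprime a b ∧ X < c ∧
      H' (a * b * c) * Real.exp (K * Real.log (H' (a * b * c)) /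
        Real.log (Real.log (H' (a * b * c)))) < c := by
  set K₀ : ℝ := 43 / 10 + 1 / 600000 with hK₀
  set K' : ℝ := 43 / 10 with hK'
  set δ : ℝ := 1 / 10 ^ 7 with hδ
  have hδ0 : 0 < δ := by rw [hδ]; norm_num
  have hgap : K' < K₀ * (1 - δ) := by
    rw [hK', hK₀, hδ]
    norm_num
  have he0 : 0 < Real.exp 1 := Real.exp_pos 1
  have he1 : (1 : ℝ) < Real.exp 1 := Real.one_lt_exp_iff.mpr one_pos
  set B : ℝ := Real.exp 1 + K' * Real.exp 1 + |Real.log (max X 1)| with hB
  have hK'0 : 0 ≤ K' := by rw [hK']; norm_num
  have hKe : 0 ≤ K' * Real.exp 1 := by positivity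
  obtain ⟨y, f1, f2, f3, f4, f5, f6, f7, f8, f9, f10⟩ :=
    (Pool.Agent.V8H8.TC.eventual B hδ0).exists
  have hyR : (3 : ℝ) ≤ y := by exact_mod_cast f1
  have hY0 : 0 < Real.log (y : ℝ) := by linarith
  obtain ⟨u, m, hκm, a, b, c, ha, hb, habc, hcop, h2m, hlogc, hg1, hest⟩ :=
    Pool.Agent.V8H8.TC.pair (y := y) (Y := Real.log y) (κ := y / Real.log (y : ℝ))
      (δ₁ := 7 / 10 ^ 9) f1 rfl f2 (by field_simp) f3 f5 f6 f7 rfl f8 (by norm_num) f9
  set Y : ℝ := Real.log ((1000 * y : ℕ) : ℝ) with hY
  have hY1 : 0 < Y := by
    rw [hY]
    apply Real.log_pos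
    push_cast
    linarith
  have hc0 : (0 : ℝ) < c := by
    have : 0 < c := by omega
    exact_mod_cast this
  set L : ℝ := Real.log (c : ℝ) with hL
  have hmL : (m : ℝ) * Real.log 2 ≤ L := by
    rw [hL, ← Real.log_pow]
    exact Real.log_le_log (by positivity) (by exact_mod_cast h2m)
  have hLB : B < L := by linarith
  have hcL : (c : ℝ) = Real.exp L := by rw [hL, Real.exp_log hc0]
  have habs : 0 ≤ |Real.log (max X 1)| := abs_nonneg _
  refine ⟨a, b, c, ha, hb, habc, hcop, ?_, ?_⟩
  · have hX1 : 0 < max X 1 := lt_of_lt_of_le one_pos (le_max_right _ _)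
    have h3 : Real.log (max X 1) < L := by
      refine lt_of_le_of_lt (le_abs_self _) ?_
      have : |Real.log (max X 1)| ≤ B := by
        rw [hB]
        linarith
      linarith
    calc X ≤ max X 1 := le_max_left _ _
      _ = Real.exp (Real.log (max X 1)) := (Real.exp_log hX1).symm
      _ < Real.exp L := Real.exp_lt_exp.mpr h3
      _ = (c : ℝ) := hcL.symm
  · have hE : Real.log (Real.exp (Real.exp 1)) = Real.exp 1 := Real.log_exp _
    set n : ℕ := a * b * c with hn
    have hr0 : (0 : ℝ) < (radical n : ℝ) := by
      have : 0 < radical n := Finset.prod_pos fun p hp => (Nat.prime_of_mem_primeFactors hp).pos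
      exact_mod_cast this
    change 1 ≤ Real.log (radical n : ℝ) at hg1
    change K₀ * u ≤ L - (Real.log (radical n : ℝ) -
      (omega n : ℝ) * Real.log (Real.log (radical n : ℝ))) at hest
    have hlogH : Real.log (H n) = Real.log (radical n : ℝ) -
        (omega n : ℝ) * Real.log (Real.log (radical n : ℝ)) := by
      have hg0 : 0 < Real.log (radical n : ℝ) := by linarith
      rw [H, Real.log_div hr0.ne' (by positivity), Real.log_pow]
    rw [← hlogH] at hest
    set h : ℝ := H' n with hh
    have hhE : Real.exp (Real.exp 1) ≤ h := le_max_right _ _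
    have hh0 : 0 < h := lt_of_lt_of_le (Real.exp_pos _) hhE
    have hlh : Real.exp 1 ≤ Real.log h := by
      rw [← hE]
      exact Real.log_le_log (Real.exp_pos _) hhE
    have hlh0 : 0 < Real.log h := by linarith
    have hllh : 1 ≤ Real.log (Real.log h) := by
      have := Real.log_le_log he0 hlh
      rwa [Real.log_exp] at this
    have hu0 : (0 : ℝ) < u := by
      have h1 : 0 < (u : ℝ) * Y := by linarith
      exact pos_of_mul_pos_left h1 hY1.le
    have hmain : Real.log h + K' * Real.log h / Real.log (Real.log h) < L := by
      rcases le_total (H n) (Real.exp (Real.exp 1)) with hcase | hcase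
      · have h3 : h = Real.exp (Real.exp 1) := max_eq_right hcase
        rw [h3, hE, Real.log_exp, div_one]
        refine lt_of_le_of_lt ?_ hLB
        rw [hB]
        linarith
      · have h3 : h = H n := max_eq_left hcase
        rw [← h3] at hest
        set M : ℝ := u * Y with hM
        have hc36 : 0 < K₀ := by rw [hK₀]; norm_num
        have hlhM : Real.log h ≤ M := by
          have h4 : 0 < K₀ * u := by positivity
          linarith
        have hM0 : 0 < M := by linarith
        have hlogM : 0 < Real.log M := Real.log_pos (by linarith)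
        have h5 : Real.log h / Real.log (Real.log h) ≤ M / Real.log M := by
          have h6 := Real.log_div_self_antitoneOn (a := Real.log h) (b := M) hlh
            (hlh.trans hlhM) hlhM
          simp only at h6
          rw [div_le_div_iff₀ (by linarith) hlogM]
          rw [div_le_div_iff₀ hM0 hlh0] at h6
          linarith
        have hδ1 : 0 < 1 - δ := by
          rw [hδ]
          norm_num
        have h6 : M / Real.log M ≤ u / (1 - δ) := by
          have h7 : (1 - δ) * Y ≤ Real.log M := by
            have hκ0 : 0 < (y : ℝ) / Real.log y := by linarith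
            exact f10.trans (Real.log_le_log hκ0 (hκm.trans (hmL.trans hlogc)))
          rw [div_le_div_iff₀ hlogM hδ1]
          calc M * (1 - δ) = u * ((1 - δ) * Y) := by
                rw [hM]
                ring
            _ ≤ u * Real.log M := by gcongr
        have h7 : K' * (u / (1 - δ)) < K₀ * u := by
          have e1 : K' * (u / (1 - δ)) = K' * u / (1 - δ) := by ring
          rw [e1, div_lt_iff₀ hδ1]
          calc K' * u < K₀ * (1 - δ) * u := by
                apply mul_lt_mul_of_pos_right hgap hu0
            _ = K₀ * u * (1 - δ) := by ring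
        have h8 := mul_le_mul_of_nonneg_left (h5.trans h6) hK'0
        have h9 : K' * Real.log h / Real.log (Real.log h) =
            K' * (Real.log h / Real.log (Real.log h)) := by ring
        rw [h9]
        have h10 : K' * (Real.log h / Real.log (Real.log h)) < L - Real.log h :=
          (h8.trans_lt h7).trans_le hest
        linarith
    have h10 : K * Real.log h / Real.log (Real.log h) ≤
        K' * Real.log h / Real.log (Real.log h) := by
      gcongr
    calc h * Real.exp (K * Real.log h / Real.log (Real.log h))
        = Real.exp (Real.log h + K * Real.log h / Real.log (Real.log h)) := by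
          rw [Real.exp_add, Real.exp_log hh0]
      _ < Real.exp L := by
          apply Real.exp_lt_exp.mpr
          linarith
      _ = (c : ℝ) := hcL.symm

end Pool.Agent.Results.MP_14cf73_nt.ExponentPigeonhole
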