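import Pool.Agent.V8H8.HS.RatQ
import Pool.Agent.V8H8.HR.NearQ

/-!
# The inequality `c < C H (abc) ^ (1 + ε)` near one cusp, with few exceptions allowed

`H (n) = γ (n) / (log γ (n)) ^ ω (n)`. Let `m, N ≥ 1` and `δ > 0`, and consider the admissible triples with
`a` and `c` perfect `m`-th powers, `N ∣ a` and `a ≤ δ c`. If `c < C(ε) H (abc) ^ (1 + ε)` holds for these
triples, then it holds for all of them, with an explicit loss in `ε`. If it is false, then there is `c₀ > 0`
such that for all positive `ε < c₀`, all `κ > 0` and `t₀` there is `t ≥ t₀` such that at least `c₀ / ε ^ 2`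
of these triples with `t ≤ c ≤ t ^ (1 + ρ)` have `H(abc) < κ c ^ (1 - ε)`.

For the first part a triple `(a, b, c)` is sent first to `(A, B, C) = (a ^ n, c ^ n - a ^ n, c ^ n)` with a
bounded `n` such that `A / C` is close to `0`, `1` or `∞` at infinity and at the primes dividing `N`, then
to the triple proportional to `(16 A B C ^ 2, (A - B) ^ 4, (C ^ 2 + 4 A B) ^ 2)` and then to its `m`-th
power. No prime of `abc` is lost. For the second part one violation `t = a / c` is first mapped by the maps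
`C t ^ i (1 - t) ^ j`, `C = (i + j) ^ (i + j) / (i ^ i j ^ j)`, which lose only boundedly many primes, and
then by maps into the region.
-/

set_option autoImplicit false

namespace Pool.Agent.Results.MP_14cf73_nt.OneCuspSwarms

/-- `γ(n)`, the product of the primes dividing `n` -/
def radical (n : ℕ) : ℕ := ∏ p ∈ n.primeFactors, p

/-- `ω(n)`, the number of primes dividing `n` -/
def omega (n : ℕ) : ℕ := n.primeFactors.card

/-- `H(n) = γ(n) / (log γ(n)) ^ ω(n)` -/
noncomputable def H (n : ℕ) : ℝ := (radical n : ℝ) / Real.log (radical n : ℝ) ^ omega n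

/-- admissible triples -/
structure Admissible (a b c : ℕ) : Prop where
  a_pos : 0 < a
  b_pos : 0 < b
  sum : a + b = c
  coprime : Nat.Coprime a b

/-- with some `C`, the inequality `c < C H(abc) ^ (1 + ε)` holds for the admissible triples
satisfying `P` -/
def Holds (P : ℕ → ℕ → ℕ → Prop) (ε : ℝ) : Prop :=
  ∃ C : ℝ, ∀ a b c : ℕ, Admissible a b c → P a b c → (c : ℝ) < C * H (a * b * c) ^ (1 + ε)

/-- the statement of the question -/
def Q1 : Prop := ∀ ε : ℝ, 0 < ε → Holds (fun _ _ _ => True) ε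

/-- `a` and `c` are `m`-th powers, `N ∣ a` and `a ≤ δ c` -/
def Near (m N : ℕ) (δ : ℝ) (a _b c : ℕ) : Prop :=
  (∃ x, a = x ^ m) ∧ (∃ z, c = z ^ m) ∧ N ∣ a ∧ (a : ℝ) ≤ δ * c

/-- the admissible triples `(a, b, c)` satisfying `P` with `t ≤ c ≤ t ^ (1 + ρ)` and
`H(abc) < κ c ^ (1 - ε)` -/
def Exceptions (P : ℕ → ℕ → ℕ → Prop) (ε κ t ρ : ℝ) : Set (ℕ × ℕ × ℕ) :=
  {x | (Admissible x.1 x.2.1 x.2.2 ∧ P x.1 x.2.1 x.2.2) ∧ t ≤ x.2.2 ∧ (x.2.2 : ℝ) ≤ t ^ (1 + ρ) ∧
    H (x.1 * x.2.1 * x.2.2) < κ * (x.2.2 : ℝ) ^ (1 - ε)}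

section explicitLoss

open Pool.Agent.V8H8.HR

lemma radical_eq (n : ℕ) : radical n = rad n := rfl

lemma adm_iff {a b c : ℕ} : Admissible a b c ↔ Adm a b c :=
  ⟨fun h => ⟨h.a_pos, h.b_pos, h.sum, h.coprime⟩, fun h => ⟨h.a0, h.b0, h.sum, h.cop⟩⟩

lemma three_le {a b c : ℕ} (h : Adm a b c) (hc : 2 < c) : 3 ≤ rad (a * b * c) := by
  have ha0 := h.a0
  have hb0 := h.b0
  have hs := h.sum
  have hne : a * b * c ≠ 0 := by
    have : 0 < c := by omega
    positivity
  have key : ∀ m : ℕ, Odd m → 3 ≤ m → m ∣ a * b * c → 3 ≤ rad (a * b * c) := by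
    intro m hodd hm hdvd
    have hp : (Nat.minFac m).Prime := Nat.minFac_prime (by omega)
    have hpm : Nat.minFac m ∣ m := Nat.minFac_dvd m
    have hp2 : Nat.minFac m ≠ 2 := by
      intro h2
      rw [h2] at hpm
      exact (Nat.not_even_iff_odd.2 hodd) (even_iff_two_dvd.2 hpm)
    have hp3 : 3 ≤ Nat.minFac m := by
      have := hp.two_le
      omega
    have hmem : Nat.minFac m ∈ (a * b * c).primeFactors :=
      Nat.mem_primeFactors.2 ⟨hp, hpm.trans hdvd, hne⟩
    have h1 : Nat.minFac m ∣ rad (a * b * c) := Finset.dvd_prod_of_mem (fun p => p) hmem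
    exact hp3.trans (Nat.le_of_dvd (rad_pos _) h1)
  rcases Nat.even_or_odd c with hce | hco
  · have hao : Odd a := by
      by_contra hcon
      rw [Nat.not_odd_iff_even] at hcon
      have h1 : Even b := by
        rw [← hs] at hce
        exact (Nat.even_add.1 hce).1 hcon
      have h2 := Nat.dvd_gcd hcon.two_dvd h1.two_dvd
      rw [h.cop] at h2
      omega
    have hbo : Odd b := by
      by_contra hcon
      rw [Nat.not_odd_iff_even] at hcon
      have h1 : Even a := by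
        rw [← hs] at hce
        exact (Nat.even_add.1 hce).2 hcon
      exact (Nat.not_even_iff_odd.2 hao) h1
    obtain ⟨x, hx⟩ := hao
    obtain ⟨y, hy⟩ := hbo
    rcases Nat.lt_or_ge a 3 with h3 | h3
    · exact key b ⟨y, hy⟩ (by omega) ((dvd_mul_left b a).mul_right c)
    · exact key a ⟨x, hx⟩ h3 ((dvd_mul_right a b).mul_right c)
  · exact key c hco hc (dvd_mul_left c _)

lemma one_lt_log3 : 1 < Real.log 3 := by
  rw [Real.lt_log_iff_exp_lt (by norm_num)]
  exact Real.exp_one_lt_three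

lemma one_lt_log {n : ℕ} (h : 3 ≤ rad n) : 1 < Real.log (rad n : ℝ) := by
  have h1 : (3 : ℝ) ≤ (rad n : ℝ) := by exact_mod_cast h
  exact one_lt_log3.trans_le (Real.log_le_log (by norm_num) h1)

lemma H_pos {n : ℕ} (h : 3 ≤ rad n) : 0 < H n := by
  have h1 := one_lt_log h
  have h2 : (0 : ℝ) < rad n := by exact_mod_cast rad_pos n
  unfold H
  rw [radical_eq]
  positivity

lemma H_le {n n' : ℕ} (h3 : 3 ≤ rad n) (hsub : n.primeFactors ⊆ n'.primeFactors) {k : ℝ}
    (hk : (rad n' : ℝ) ≤ k * rad n) : H n' ≤ k * H n := by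
  have h1 := one_lt_log h3
  have h2 : (0 : ℝ) < rad n := by exact_mod_cast rad_pos n
  have h2' : (0 : ℝ) < rad n' := by exact_mod_cast rad_pos n'
  have hle : rad n ≤ rad n' := by
    apply Finset.prod_le_prod_of_subset_of_one_le' hsub
    intro p hp _
    exact (Nat.prime_of_mem_primeFactors hp).one_le
  have hle' : (rad n : ℝ) ≤ rad n' := by exact_mod_cast hle
  have hlog := Real.log_le_log h2 hle'
  have hcard : omega n ≤ omega n' := Finset.card_le_card hsub
  have h4 : Real.log (rad n : ℝ) ^ omega n ≤ Real.log (rad n' : ℝ) ^ omega n' := by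
    calc Real.log (rad n : ℝ) ^ omega n ≤ Real.log (rad n' : ℝ) ^ omega n :=
          pow_le_pow_left₀ (by linarith) hlog _
      _ ≤ Real.log (rad n' : ℝ) ^ omega n' := pow_le_pow_right₀ (by linarith) hcard
  have h5 : 0 < Real.log (rad n : ℝ) ^ omega n := by positivity
  unfold H
  rw [radical_eq, radical_eq]
  calc (rad n' : ℝ) / Real.log (rad n' : ℝ) ^ omega n' ≤ rad n' / Real.log (rad n : ℝ) ^ omega n :=
        div_le_div_of_nonneg_left h2'.le h5 h4
    _ ≤ k * rad n / Real.log (rad n : ℝ) ^ omega n := div_le_div_of_nonneg_right hk h5.le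
    _ = k * (rad n / Real.log (rad n : ℝ) ^ omega n) := by ring

/-- the explicit loss -/
theorem explicit (m : ℕ) (hm : 1 ≤ m) (N : ℕ) (hN : 1 ≤ N) (δ : ℝ) (hδ : 0 < δ) :
    ∃ D : ℕ, ∀ ε : ℝ, 0 < ε → Holds (Near m N δ) (ε / (1 + D * (1 + ε))) →
      Holds (fun _ _ _ => True) ε := by
  have main : ∃ D : ℕ, ∀ ε : ℝ, 0 < ε → Holds (Near m N δ) (ε / (1 + D * (1 + ε))) →
      Holds (fun _ _ _ => True) ε := by
    obtain ⟨D, L, hD, hreg⟩ := region N (by omega) hδ m hm
    refine ⟨D - 1, fun ε hε => ?_⟩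
    have hD1 : ((D - 1 : ℕ) : ℝ) = (D : ℝ) - 1 := by
      push_cast [Nat.cast_sub hD]
      ring
    have hD1' : (1 : ℝ) ≤ D := by exact_mod_cast hD
    rw [hD1]
    set q : ℝ := 1 + ((D : ℝ) - 1) * (1 + ε) with hq
    have hq0 : 1 ≤ q := by
      have : 0 ≤ ((D : ℝ) - 1) * (1 + ε) := mul_nonneg (by linarith) (by linarith)
      linarith
    set ε' : ℝ := ε / q with hε'
    have hε'0 : 0 < ε' := by positivity
    have hε'q : ε' * q = ε := by rw [hε']; field_simp
    rintro ⟨C', hC'⟩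
    set lam : ℝ := 1 - ε' * ((D : ℝ) - 1) with hlam
    have hlamq : lam = (1 + ε') / (1 + ε) := by
      rw [hlam, eq_div_iff (by linarith)]
      rw [hq] at hε'q
      linear_combination -hε'q
    have hlam0 : 0 < lam := by
      rw [hlamq]
      positivity
    have hlame : (1 + ε') = (1 + ε) * lam := by
      rw [hlamq]
      field_simp
    set K1 : ℝ := |Real.log L| + |Real.log C'| + (1 + ε') * |Real.log L| with hK1
    have hH2 : 0 < H (1 * 1 * 2) := by
      have h1 : radical (1 * 1 * 2) = 2 := by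
        unfold radical
        rw [show 1 * 1 * 2 = 2 from rfl, Nat.Prime.primeFactors Nat.prime_two, Finset.prod_singleton]
      have h2 : 0 < Real.log 2 := Real.log_pos (by norm_num)
      unfold H
      rw [h1]
      push_cast
      positivity
    refine ⟨max (Real.exp (K1 / lam) + 1) (3 / H (1 * 1 * 2) ^ (1 + ε)), fun a b c h _ => ?_⟩
    rw [adm_iff] at h
    rcases Nat.lt_or_ge 2 c with hc | hc
    · -- the main case
      obtain ⟨d, a', b', c', hd1, hdD, hA', hS, hx, hz, hNa, hle⟩ := hreg a b c h hc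
      have h1 := hC' a' b' c' (adm_iff.2 hA') ⟨hx, hz, hNa, hle⟩
      have hr3 := three_le h hc
      have hsub := hS.sub
      have hr3' : 3 ≤ rad (a' * b' * c') := by
        refine hr3.trans ?_
        apply Finset.prod_le_prod_of_subset_of_one_le' hsub
        intro p hp _
        exact (Nat.prime_of_mem_primeFactors hp).one_le
      have hHp := H_pos hr3
      have hHp' := H_pos hr3'
      have hc0 : (0 : ℝ) < c := by
        have : 0 < c := by omega
        exact_mod_cast this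
      have hc'0 : (0 : ℝ) < c' := by
        have h1 := hA'.a0
        have h2 := hA'.sum
        have : 0 < c' := by omega
        exact_mod_cast this
      have hlow : (c : ℝ) ^ d ≤ L * c' := by exact_mod_cast hS.low
      have hL0 : (0 : ℝ) < L := by
        have h2 : 0 < (c : ℝ) ^ d := by positivity
        have h3 := h2.trans_le hlow
        exact (pos_iff_pos_of_mul_pos h3).2 hc'0
      have hrad : (rad (a' * b' * c') : ℝ) ≤ (L * (c : ℝ) ^ (d - 1)) * rad (a * b * c) := by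
        exact_mod_cast hS.rad
      have hHle : H (a' * b' * c') ≤ (L * (c : ℝ) ^ (d - 1)) * H (a * b * c) := H_le hr3 hsub hrad
      have hpow0 : 0 < H (a' * b' * c') ^ (1 + ε') := Real.rpow_pos_of_pos hHp' _
      have hC'0 : 0 < C' := by
        have h2 := hc'0.trans h1
        exact (pos_iff_pos_of_mul_pos h2).2 hpow0
      have hlogc : 0 ≤ Real.log c := by
        apply Real.log_nonneg
        have : 1 ≤ c := by omega
        exact_mod_cast this
      -- logarithms
      have l1 : d * Real.log c ≤ Real.log L + Real.log c' := by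
        have := Real.log_le_log (by positivity) hlow
        rwa [Real.log_pow, Real.log_mul hL0.ne' hc'0.ne'] at this
      have l2 : Real.log c' ≤ Real.log C' + (1 + ε') * Real.log (H (a' * b' * c')) := by
        have := Real.log_le_log hc'0 h1.le
        rwa [Real.log_mul hC'0.ne' hpow0.ne', Real.log_rpow hHp'] at this
      have l3 : Real.log (H (a' * b' * c')) ≤ Real.log L + (d - 1) * Real.log c +
          Real.log (H (a * b * c)) := by
        have := Real.log_le_log hHp' hHle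
        rw [Real.log_mul (by positivity) hHp.ne', Real.log_mul hL0.ne' (by positivity),
          Real.log_pow] at this
        have e : ((d - 1 : ℕ) : ℝ) = (d : ℝ) - 1 := by
          push_cast [Nat.cast_sub hd1]
          ring
        rw [e] at this
        linarith
      have l4 : (1 + ε') * Real.log (H (a' * b' * c')) ≤ (1 + ε') * (Real.log L +
          (d - 1) * Real.log c + Real.log (H (a * b * c))) :=
        mul_le_mul_of_nonneg_left l3 (by linarith)
      have l5 : (1 - ε' * ((d : ℝ) - 1)) * Real.log c ≤ K1 + (1 + ε') * Real.log (H (a * b * c)) := by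
        have hLa := le_abs_self (Real.log L)
        have hCa := le_abs_self (Real.log C')
        have hLa' : (1 + ε') * Real.log L ≤ (1 + ε') * |Real.log L| :=
          mul_le_mul_of_nonneg_left hLa (by linarith)
        have e : (1 - ε' * ((d : ℝ) - 1)) * Real.log c = d * Real.log c -
            (1 + ε') * ((d - 1) * Real.log c) := by ring
        have e2 : (1 + ε') * (Real.log L + (d - 1) * Real.log c + Real.log (H (a * b * c))) =
            (1 + ε') * Real.log L + (1 + ε') * ((d - 1) * Real.log c) +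
            (1 + ε') * Real.log (H (a * b * c)) := by ring
        rw [e2] at l4
        rw [e, hK1]
        linarith
      have l6 : lam * Real.log c ≤ K1 + (1 + ε') * Real.log (H (a * b * c)) := by
        refine le_trans ?_ l5
        apply mul_le_mul_of_nonneg_right _ hlogc
        rw [hlam]
        have hdD' : (d : ℝ) ≤ D := by exact_mod_cast hdD
        have := mul_le_mul_of_nonneg_left hdD' hε'0.le
        linarith
      have l7 : Real.log c ≤ K1 / lam + (1 + ε) * Real.log (H (a * b * c)) := by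
        rw [hlame] at l6
        have e : K1 + (1 + ε) * lam * Real.log (H (a * b * c)) =
            lam * (K1 / lam + (1 + ε) * Real.log (H (a * b * c))) := by
          field_simp
        rw [e] at l6
        exact le_of_mul_le_mul_left l6 hlam0
      have hpow : 0 < H (a * b * c) ^ (1 + ε) := Real.rpow_pos_of_pos hHp _
      have l8 : (c : ℝ) ≤ Real.exp (K1 / lam) * H (a * b * c) ^ (1 + ε) := by
        rw [← Real.log_le_log_iff hc0 (mul_pos (Real.exp_pos _) hpow),
          Real.log_mul (Real.exp_pos _).ne' hpow.ne', Real.log_exp, Real.log_rpow hHp]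
        exact l7
      calc (c : ℝ) ≤ Real.exp (K1 / lam) * H (a * b * c) ^ (1 + ε) := l8
        _ < (Real.exp (K1 / lam) + 1) * H (a * b * c) ^ (1 + ε) := by
            apply mul_lt_mul_of_pos_right _ hpow
            linarith
        _ ≤ max (Real.exp (K1 / lam) + 1) (3 / H (1 * 1 * 2) ^ (1 + ε)) *
            H (a * b * c) ^ (1 + ε) := mul_le_mul_of_nonneg_right (le_max_left _ _) hpow.le
    · -- the triple `(1, 1, 2)`
      have h1 := h.a0
      have h2 := h.b0
      have h3 := h.sum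
      have ha : a = 1 := by omega
      have hb : b = 1 := by omega
      have hc : c = 2 := by omega
      subst ha hb hc
      have hpow : 0 < H (1 * 1 * 2) ^ (1 + ε) := Real.rpow_pos_of_pos hH2 _
      calc ((2 : ℕ) : ℝ) < 3 := by norm_num
        _ = 3 / H (1 * 1 * 2) ^ (1 + ε) * H (1 * 1 * 2) ^ (1 + ε) := by field_simp
        _ ≤ max (Real.exp (K1 / lam) + 1) (3 / H (1 * 1 * 2) ^ (1 + ε)) *
            H (1 * 1 * 2) ^ (1 + ε) := mul_le_mul_of_nonneg_right (le_max_right _ _) hpow.le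
  exact main

end explicitLoss

section swarms

open NumberField Pool.Agent.V8H8.AB Pool.Agent.V8H8.HS

lemma Admissible.c_pos {a b c : ℕ} (h : Admissible a b c) : 0 < c := by
  have h1 := h.a_pos
  have h2 := h.sum
  omega

/-- the quantities of an admissible triple -/
lemma triple_data {a b c : ℕ} (h : Admissible a b c) :
    Valid ((a : ℚ), (c : ℚ)) ∧ hh ((a : ℚ), (c : ℚ)) = Real.log c ∧
      lh ((a : ℚ), (c : ℚ)) = Real.log (H (a * b * c)) ∧ 0 < H (a * b * c) := by
  have ha := h.a_pos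
  have hb := h.b_pos
  have hc := h.c_pos
  have hs := h.sum
  have hcop : IsCoprime (a : ℤ) (c : ℤ) := by
    rw [Nat.isCoprime_iff_coprime, ← hs]
    have := h.coprime
    rwa [Nat.coprime_self_add_right]
  have hac : (a : ℝ) ≤ c := by
    have : a ≤ c := by omega
    exact_mod_cast this
  have hval : Valid ((a : ℚ), (c : ℚ)) := by
    refine ⟨?_, ?_, ?_⟩
    · show (a : ℚ) ≠ 0
      exact_mod_cast ha.ne'
    · show (c : ℚ) ≠ 0
      exact_mod_cast hc.ne'
    · show (c : ℚ) - (a : ℚ) ≠ 0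
      rw [← hs]
      push_cast
      have : (b : ℚ) ≠ 0 := by exact_mod_cast hb.ne'
      rwa [add_sub_cancel_left]
  have hn0 : ((a : ℤ) * b * c) ≠ 0 := by positivity
  have hnat : ((a : ℤ) * b * c).natAbs = a * b * c := by
    rw [Int.natAbs_mul, Int.natAbs_mul, Int.natAbs_natCast, Int.natAbs_natCast,
      Int.natAbs_natCast]
  obtain ⟨k1, k2⟩ := rad_rat hn0
  have hI := I_rat (a := (a : ℤ)) (b := (b : ℤ)) (c := (c : ℤ)) (by exact_mod_cast hs) hcop
  push_cast at hI
  rw [← hI, hnat] at k1 k2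
  have hr2 : 2 ≤ radical (a * b * c) := by
    have h2 : 2 ∣ a * b * c := by
      rcases Nat.even_or_odd a with h | h
      · exact (h.two_dvd.mul_right _).mul_right _
      · rcases Nat.even_or_odd b with h' | h'
        · exact (h'.two_dvd.mul_left _).mul_right _
        · have : Even c := by
            rw [← hs]
            exact h.add_odd h'
          exact this.two_dvd.mul_left _
    have hne : a * b * c ≠ 0 := by positivity
    have h3 : 2 ∣ radical (a * b * c) :=
      Finset.dvd_prod_of_mem (fun p => p) (Nat.mem_primeFactors.2 ⟨Nat.prime_two, h2, hne⟩)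
    refine Nat.le_of_dvd ?_ h3
    exact Finset.prod_pos fun p hp => (Nat.prime_of_mem_primeFactors hp).pos
  have hr2' : (2 : ℝ) ≤ radical (a * b * c) := by exact_mod_cast hr2
  have hl : 0 < Real.log (radical (a * b * c) : ℝ) := Real.log_pos (by linarith)
  have hHpos : 0 < H (a * b * c) := by
    unfold H
    positivity
  refine ⟨hval, ?_, ?_, hHpos⟩
  · have h1 := hh_rat hcop (by exact_mod_cast hc.ne')
    push_cast at h1
    rw [h1, Nat.abs_cast, Nat.abs_cast, max_eq_right hac]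
  · unfold lh H
    rw [k1, k2, Real.log_div (by linarith) (by positivity), Real.log_pow]
    rfl

/-- a lower bound for `lh` -/
lemma lh_lower (L : ℝ) : ∃ B : ℝ, ∀ p : ℚ × ℚ, Valid p → hh p ≤ L → -B ≤ lh p := by
  obtain ⟨C0, hC0, hW⟩ := W_I_le (K := ℚ)
  refine ⟨2 * (3 * |L| + C0) ^ 2, fun p hp hL => ?_⟩
  have h1 := hW p hp
  have h2 := W_nonneg (I p)
  have h3 := ncard_le (I_finite hp)
  have hl2 := Real.log_two_gt_d9
  set w := W (I p) with hw
  set n : ℝ := ((I p).ncard : ℝ) with hn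
  have hn0 : 0 ≤ n := Nat.cast_nonneg _
  have hLa := le_abs_self L
  have hwM : w ≤ 3 * |L| + C0 := by linarith
  have hn2 : n ≤ 2 * w := by
    have : n * (1 / 2) ≤ n * Real.log 2 := mul_le_mul_of_nonneg_left (by linarith) hn0
    linarith
  have h4 : n * Real.log w ≤ 2 * (3 * |L| + C0) ^ 2 := by
    have h5 : Real.log w ≤ w := Real.log_le_self h2
    calc n * Real.log w ≤ n * w := mul_le_mul_of_nonneg_left h5 hn0
      _ ≤ 2 * w * w := mul_le_mul_of_nonneg_right hn2 h2
      _ = 2 * w ^ 2 := by ring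
      _ ≤ 2 * (3 * |L| + C0) ^ 2 := by gcongr
  unfold lh
  rw [← hw, ← hn]
  linarith

/-- the start -/
lemma start (h : ¬ Q1) : ∃ η : ℝ, 0 < η ∧ ∀ L : ℝ, ∃ p : ℚ × ℚ, Valid p ∧ L ≤ hh p ∧
    lh p ≤ (1 - η) * hh p := by
  unfold Q1 Holds at h
  push Not at h
  obtain ⟨e, he, h⟩ := h
  refine ⟨e / (1 + e), by positivity, fun L => ?_⟩
  obtain ⟨B, hB⟩ := lh_lower L
  set Z : ℝ := |L| + (1 + e) * |B| + 1 with hZ
  obtain ⟨a, b, c, hT, -, hlt⟩ := h (Real.exp Z)
  obtain ⟨hval, hhc, hlh, hHp⟩ := triple_data hT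
  have hc0 : (0 : ℝ) < c := by exact_mod_cast hT.c_pos
  have hpow : 0 < H (a * b * c) ^ (1 + e) := Real.rpow_pos_of_pos hHp _
  have h1 := Real.log_le_log (mul_pos (Real.exp_pos _) hpow) hlt
  rw [Real.log_mul (Real.exp_pos _).ne' hpow.ne', Real.log_exp, Real.log_rpow hHp, ← hlh,
    ← hhc] at h1
  have hZ0 : 0 ≤ Z := by positivity
  refine ⟨_, hval, ?_, ?_⟩
  · by_contra hcon
    push Not at hcon
    have h2 := hB _ hval hcon.le
    have h3 : (1 + e) * (-|B|) ≤ (1 + e) * lh ((a : ℚ), (c : ℚ)) := by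
      apply mul_le_mul_of_nonneg_left _ (by linarith)
      have := le_abs_self B
      linarith
    have h4 := le_abs_self L
    linarith
  · have h2 : lh ((a : ℚ), (c : ℚ)) ≤ hh ((a : ℚ), (c : ℚ)) / (1 + e) := by
      rw [le_div_iff₀ (by linarith)]
      linarith
    have h3 : (1 - e / (1 + e)) * hh ((a : ℚ), (c : ℚ)) = hh ((a : ℚ), (c : ℚ)) / (1 + e) := by
      field_simp
      ring
    rw [h3]
    exact h2

/-- many exceptions if the statement is false -/
theorem lower (m : ℕ) (hm : 1 ≤ m) (N : ℕ) (hN : 1 ≤ N) (δ : ℝ) (hδ : 0 < δ) (ρ : ℝ)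
    (hρ : 0 < ρ) (h : ¬ Q1) :
    ∃ c₀ : ℝ, 0 < c₀ ∧ ∀ ε : ℝ, 0 < ε → ε < c₀ → ∀ κ : ℝ, 0 < κ → ∀ t₀ : ℝ, ∃ t : ℝ, t₀ ≤ t ∧
      ∃ F : Finset (ℕ × ℕ × ℕ), (F : Set _) ⊆ Exceptions (Near m N δ) ε κ t ρ ∧
        c₀ / ε ^ 2 ≤ (F.card : ℝ) := by
  classical
  obtain ⟨η, hη, hbad⟩ := start h
  have hN' : (0 : ℝ) < N := by exact_mod_cast hN
  set δ' : ℝ := min (min δ 1) (1 / N) with hδ'
  have hδ'0 : 0 < δ' := by positivity
  have hδ'1 : δ' ≤ 1 := (min_le_left _ _).trans (min_le_right _ _)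
  have hδ'δ : δ' ≤ δ := (min_le_left _ _).trans (min_le_left _ _)
  set S : Finset (AbsoluteValue ℚ ℝ) := {Rat.AbsoluteValue.real} ∪
    N.primeFactors.attach.image (fun q => @Rat.AbsoluteValue.padic q.1
      ⟨Nat.prime_of_mem_primeFactors q.2⟩) with hS
  have hTB : ∀ a ∈ S, TB a := by
    intro a ha
    rcases Finset.mem_union.1 ha with h | h
    · rw [Finset.mem_singleton] at h
      rw [h]
      exact Pool.Agent.V8H8.HR.TB_real
    · obtain ⟨q, -, rfl⟩ := Finset.mem_image.1 h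
      exact @Pool.Agent.V8H8.HR.TB_padic q.1 ⟨Nat.prime_of_mem_primeFactors q.2⟩
  obtain ⟨c', hc', hsw⟩ := swh_region S hTB hδ'0 (m := 2 * m) (by omega) (swh_start hη hbad) ρ hρ
  refine ⟨min (c' / 4) (1 / 2), by positivity, ?_⟩
  intro ε hε hεc κ hκ t₀
  have e1 : ε < c' / 4 := hεc.trans_le (min_le_left _ _)
  have e2 : ε < 1 / 2 := hεc.trans_le (min_le_right _ _)
  obtain ⟨s, hs, F, hFc, hF, hFinj⟩ := hsw (2 * ε) (by positivity) (by linarith)
    (2 * |Real.log κ| + 1) (|Real.log (max t₀ 1)| + 2 * |Real.log κ| + 3)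
  have habs1 := abs_nonneg (Real.log (max t₀ 1))
  have habs2 := abs_nonneg (Real.log κ)
  -- the triples
  have hdata : ∀ p : ℚ × ℚ, ∃ x : ℕ × ℕ × ℕ, p ∈ F →
      (Admissible x.1 x.2.1 x.2.2 ∧ Near m N δ x.1 x.2.1 x.2.2) ∧
      hh ((x.1 : ℚ), (x.2.2 : ℚ)) = hh p ∧ lh ((x.1 : ℚ), (x.2.2 : ℚ)) = lh p ∧
        p.1 / p.2 = (x.1 : ℚ) / (x.2.2 : ℚ) := by
    intro p
    by_cases hp : p ∈ F
    swap
    · exact ⟨0, fun h => absurd h hp⟩
    obtain ⟨hv, ⟨q, hq, rfl, hU⟩, -⟩ := hF p hp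
    obtain ⟨a, c, l, hl, hc0, hcop, rfl⟩ := exists_coprime_rat q hq.2.1
    obtain ⟨v1, v2, v3⟩ := hq
    simp only at v1 v2 v3 hU
    have ha0 : a ≠ 0 := by
      rintro rfl
      apply v1
      simp
    have hlm : l ^ (2 * m) ≠ 0 := pow_ne_zero _ hl
    have hca : ((c.natAbs : ℕ) : ℤ) = c := Int.natAbs_of_nonneg hc0.le
    set A : ℕ := a.natAbs with hA
    set D : ℕ := c.natAbs with hD
    have hA0 : 0 < A := Int.natAbs_pos.2 ha0
    have hD0 : 0 < D := Int.natAbs_pos.2 hc0.ne'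
    have hAq : ((a : ℚ)) ^ (2 * m) = ((A : ℚ)) ^ (2 * m) := by
      rw [pow_mul, pow_mul]
      congr 1
      have h1 : (A : ℤ) ^ 2 = a ^ 2 := Int.natAbs_sq a
      exact_mod_cast h1.symm
    have hDq : ((c : ℚ)) ^ (2 * m) = ((D : ℚ)) ^ (2 * m) := by
      have h1 : (c : ℚ) = (D : ℚ) := by
        have h2 : c = ((D : ℕ) : ℤ) := hca.symm
        have h3 := congrArg (Int.cast : ℤ → ℚ) h2
        rw [h3, Int.cast_natCast]
      rw [h1]
    have hpw : pw (2 * m) (l * (a : ℚ), l * (c : ℚ)) =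
        (l ^ (2 * m) * ((A ^ (2 * m) : ℕ) : ℚ), l ^ (2 * m) * ((D ^ (2 * m) : ℕ) : ℚ)) := by
      unfold pw
      simp only [mul_pow]
      rw [hAq, hDq]
      push_cast
      rfl
    rw [hpw] at hv ⊢
    obtain ⟨w1, w2, w3⟩ := hv
    simp only at w1 w2 w3
    -- the real absolute value
    have hac : (A : ℝ) ≤ δ' * D := by
      have h1 := hU Rat.AbsoluteValue.real
        (Finset.mem_union_left _ (Finset.mem_singleton_self _))
      rw [map_mul, map_mul] at h1
      have hl0 : 0 < Rat.AbsoluteValue.real l := AbsoluteValue.pos _ hl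
      have h2 : Rat.AbsoluteValue.real (a : ℚ) ≤ δ' * Rat.AbsoluteValue.real (c : ℚ) := by
        have h3 : Rat.AbsoluteValue.real l * Rat.AbsoluteValue.real (a : ℚ) ≤
            Rat.AbsoluteValue.real l * (δ' * Rat.AbsoluteValue.real (c : ℚ)) := by
          calc _ ≤ δ' * (Rat.AbsoluteValue.real l * Rat.AbsoluteValue.real (c : ℚ)) := h1
            _ = _ := by ring
        exact le_of_mul_le_mul_left h3 hl0
      rw [Rat.AbsoluteValue.real_eq_abs, Rat.AbsoluteValue.real_eq_abs] at h2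
      have h3 : ((|(a : ℚ)| : ℚ) : ℝ) = (A : ℝ) := by
        rw [hA]
        push_cast
        rw [Nat.cast_natAbs]
        push_cast
        rfl
      have h4 : ((|(c : ℚ)| : ℚ) : ℝ) = (D : ℝ) := by
        rw [hD]
        push_cast
        rw [Nat.cast_natAbs]
        push_cast
        rfl
      rwa [h3, h4] at h2
    have hAD : A ≤ D := by
      have h1 : (A : ℝ) ≤ D := by
        calc (A : ℝ) ≤ δ' * D := hac
          _ ≤ 1 * D := mul_le_mul_of_nonneg_right hδ'1 (Nat.cast_nonneg _)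
          _ = D := one_mul _
      exact_mod_cast h1
    have hADne : A ^ (2 * m) ≠ D ^ (2 * m) := by
      intro h0
      apply w3
      rw [h0, sub_self]
    have hADlt : A ^ (2 * m) < D ^ (2 * m) :=
      lt_of_le_of_ne (Nat.pow_le_pow_left hAD _) hADne
    have hcopN : Nat.Coprime A D := by
      rw [hA, hD]
      exact Int.isCoprime_iff_gcd_eq_one.1 hcop
    have hT : Admissible (A ^ (2 * m)) (D ^ (2 * m) - A ^ (2 * m)) (D ^ (2 * m)) := by
      refine ⟨by positivity, by omega, by omega, ?_⟩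
      have h1 : Nat.Coprime (A ^ (2 * m)) (D ^ (2 * m)) := hcopN.pow _ _
      exact (Nat.coprime_sub_self_right hADlt.le).2 h1
    -- divisibility
    have hdvd : N ∣ A := by
      rw [Nat.dvd_iff_prime_pow_dvd_dvd]
      intro p k hp hpk
      rcases Nat.eq_zero_or_pos k with rfl | hk
      · simp
      have hpN : p ∣ N := (dvd_pow_self p (by omega)).trans hpk
      have : Fact p.Prime := ⟨hp⟩
      have hpf : p ∈ N.primeFactors := Nat.mem_primeFactors.2 ⟨hp, hpN, by omega⟩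
      have h1 := hU (Rat.AbsoluteValue.padic p) (Finset.mem_union_right _ (Finset.mem_image.2
        ⟨⟨p, hpf⟩, Finset.mem_attach _ _, rfl⟩))
      rw [map_mul, map_mul] at h1
      have hl0 : 0 < Rat.AbsoluteValue.padic p l := AbsoluteValue.pos _ hl
      have h2 : Rat.AbsoluteValue.padic p (a : ℚ) ≤ δ' * Rat.AbsoluteValue.padic p (c : ℚ) := by
        have h3 : Rat.AbsoluteValue.padic p l * Rat.AbsoluteValue.padic p (a : ℚ) ≤
            Rat.AbsoluteValue.padic p l * (δ' * Rat.AbsoluteValue.padic p (c : ℚ)) := by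
          calc _ ≤ δ' * (Rat.AbsoluteValue.padic p l * Rat.AbsoluteValue.padic p (c : ℚ)) := h1
            _ = _ := by ring
        exact le_of_mul_le_mul_left h3 hl0
      rw [Rat.AbsoluteValue.padic_eq_padicNorm, Rat.AbsoluteValue.padic_eq_padicNorm] at h2
      have h3 : ((padicNorm p (c : ℚ) : ℚ) : ℝ) ≤ 1 := by
        have := padicNorm.of_int (p := p) c
        exact_mod_cast this
      have hpk' : ((p ^ k : ℕ) : ℝ) ≤ N := by
        have := Nat.le_of_dvd (by omega) hpk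
        exact_mod_cast this
      have hpk0 : (0 : ℝ) < ((p ^ k : ℕ) : ℝ) := by
        have := pow_pos hp.pos k
        exact_mod_cast this
      have h4 : ((padicNorm p (a : ℚ) : ℚ) : ℝ) ≤ 1 / ((p ^ k : ℕ) : ℝ) := by
        calc ((padicNorm p (a : ℚ) : ℚ) : ℝ) ≤ δ' * ((padicNorm p (c : ℚ) : ℚ) : ℝ) := h2
          _ ≤ δ' * 1 := mul_le_mul_of_nonneg_left h3 hδ'0.le
          _ = δ' := mul_one _
          _ ≤ 1 / N := min_le_right _ _
          _ ≤ 1 / ((p ^ k : ℕ) : ℝ) := one_div_le_one_div_of_le hpk0 hpk'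
      have h5 : padicNorm p ((a : ℤ) : ℚ) ≤ (p : ℚ) ^ (-(k : ℤ)) := by
        have e5 : (p : ℚ) ^ (-(k : ℤ)) = 1 / ((p ^ k : ℕ) : ℚ) := by
          rw [zpow_neg, zpow_natCast]
          push_cast
          rw [one_div]
        rw [e5]
        have h6 : ((padicNorm p ((a : ℤ) : ℚ) : ℚ) : ℝ) ≤ ((1 / ((p ^ k : ℕ) : ℚ) : ℚ) : ℝ) := by
          push_cast
          push_cast at h4
          exact h4
        exact_mod_cast h6
      have h6 := padicNorm.dvd_iff_norm_le.2 h5
      rw [hA]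
      exact Int.natCast_dvd.1 (by exact_mod_cast h6)
    have hhe := hh_smul_rat hlm ((A ^ (2 * m) : ℕ) : ℚ) ((D ^ (2 * m) : ℕ) : ℚ)
    have hIe := I_smul hlm (((A ^ (2 * m) : ℕ) : ℚ), ((D ^ (2 * m) : ℕ) : ℚ))
    simp only at hIe
    refine ⟨(A ^ (2 * m), D ^ (2 * m) - A ^ (2 * m), D ^ (2 * m)), fun _ =>
      ⟨⟨hT, ⟨A ^ 2, by rw [← pow_mul]⟩, ⟨D ^ 2, by rw [← pow_mul]⟩, dvd_pow hdvd (by omega), ?_⟩,
        hhe.symm, ?_, ?_⟩⟩
    · simp only
      push_cast
      calc (A : ℝ) ^ (2 * m) ≤ (δ' * D) ^ (2 * m) := pow_le_pow_left₀ (Nat.cast_nonneg _) hac _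
        _ = δ' ^ (2 * m) * (D : ℝ) ^ (2 * m) := mul_pow _ _ _
        _ ≤ δ * (D : ℝ) ^ (2 * m) := by
          apply mul_le_mul_of_nonneg_right _ (by positivity)
          calc δ' ^ (2 * m) ≤ δ' ^ 1 := pow_le_pow_of_le_one hδ'0.le hδ'1 (by omega)
            _ = δ' := pow_one _
            _ ≤ δ := hδ'δ
    · simp only
      unfold lh
      rw [hIe]
    · simp only
      exact mul_div_mul_left _ _ hlm
  choose g hg using hdata
  have hginj : ∀ p ∈ F, ∀ p' ∈ F, g p = g p' → p = p' := by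
    intro p hp p' hp' hpp
    apply hFinj p hp p' hp'
    obtain ⟨-, -, -, k3⟩ := hg p hp
    obtain ⟨-, -, -, k3'⟩ := hg p' hp'
    rw [k3, k3', hpp]
  set t : ℝ := Real.exp s with ht
  have hlogt : Real.log t = s := by rw [ht, Real.log_exp]
  have ht0 : 0 < t := Real.exp_pos _
  refine ⟨t, ?_, F.image g, ?_, ?_⟩
  · have h1 : Real.log (max t₀ 1) ≤ Real.log t := by
      rw [hlogt]
      have := le_abs_self (Real.log (max t₀ 1))
      linarith
    have h2 : 0 < max t₀ 1 := lt_max_of_lt_right one_pos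
    exact (le_max_left _ _).trans ((Real.log_le_log_iff h2 ht0).1 h1)
  · intro x hx
    rw [Finset.coe_image, Set.mem_image] at hx
    obtain ⟨p, hp, rfl⟩ := hx
    have hp : p ∈ F := hp
    obtain ⟨-, -, k1, k2, k3⟩ := hF p hp
    obtain ⟨hR, g2, g3, -⟩ := hg p hp
    have hT : Admissible (g p).1 (g p).2.1 (g p).2.2 := hR.1
    obtain ⟨-, hhc, hlh, hHp⟩ := triple_data hT
    rw [g2] at hhc
    rw [g3] at hlh
    rw [hhc] at k1 k2 k3
    rw [hlh] at k3
    have hc0 : (0 : ℝ) < ((g p).2.2 : ℝ) := by exact_mod_cast hT.c_pos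
    set lc : ℝ := Real.log ((g p).2.2 : ℝ) with hlc
    set lH : ℝ := Real.log (H ((g p).1 * (g p).2.1 * (g p).2.2)) with hlHdef
    refine ⟨hR, ?_, ?_, ?_⟩
    · rw [← Real.log_le_log_iff ht0 hc0, hlogt]
      exact k1
    · rw [← Real.log_le_log_iff hc0 (Real.rpow_pos_of_pos ht0 _), Real.log_rpow ht0, hlogt]
      exact k2
    · rw [← Real.log_lt_log_iff hHp (mul_pos hκ (Real.rpow_pos_of_pos hc0 _)),
        Real.log_mul hκ.ne' (Real.rpow_pos_of_pos hc0 _).ne', Real.log_rpow hc0, ← hlHdef, ← hlc]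
      have h5 := neg_abs_le (Real.log κ)
      rcases le_or_gt 0 lH with hpos | hneg
      · have h2 : lH ≤ (1 - ε) * ((1 + 2 * ε) * lH) := by
          have e6 : (1 - ε) * ((1 + 2 * ε) * lH) = lH + (ε * (1 - 2 * ε)) * lH := by ring
          rw [e6]
          have : 0 ≤ (ε * (1 - 2 * ε)) * lH := mul_nonneg (mul_nonneg hε.le (by linarith)) hpos
          linarith
        have h3 : (1 - ε) * ((1 + 2 * ε) * lH) ≤ (1 - ε) * (lc - (2 * |Real.log κ| + 1)) :=
          mul_le_mul_of_nonneg_left (by linarith) (by linarith)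
        have h4 : 1 / 2 * (2 * |Real.log κ| + 1) ≤ (1 - ε) * (2 * |Real.log κ| + 1) :=
          mul_le_mul_of_nonneg_right (by linarith) (by positivity)
        have e7 : (1 - ε) * (lc - (2 * |Real.log κ| + 1)) =
            (1 - ε) * lc - (1 - ε) * (2 * |Real.log κ| + 1) := by ring
        linarith
      · have h1 : 2 * |Real.log κ| + 3 ≤ lc := by linarith
        have h2 : 1 / 2 * lc ≤ (1 - ε) * lc :=
          mul_le_mul_of_nonneg_right (by linarith) (by linarith)
        linarith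
  · rw [Finset.card_image_of_injOn (fun p hp p' hp' hpp => hginj p hp p' hp' hpp)]
    refine le_trans ?_ hFc
    have e5 : c' / (2 * ε) ^ 2 = c' / 4 / ε ^ 2 := by
      field_simp
      ring
    rw [e5]
    gcongr
    exact min_le_left _ _

theorem few (m : ℕ) (hm : 1 ≤ m) (N : ℕ) (hN : 1 ≤ N) (δ : ℝ) (hδ : 0 < δ) (ρ : ℝ)
    (hρ : 0 < ρ) :
    (¬ Q1 → ∃ c₀ : ℝ, 0 < c₀ ∧ ∀ ε : ℝ, 0 < ε → ε < c₀ → ∀ κ : ℝ, 0 < κ → ∀ t₀ : ℝ, ∃ t : ℝ,
      t₀ ≤ t ∧ ∃ F : Finset (ℕ × ℕ × ℕ),
        (F : Set _) ⊆ Exceptions (Near m N δ) ε κ t ρ ∧ c₀ / ε ^ 2 ≤ (F.card : ℝ)) ∧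
    (Q1 ↔ ∀ κ₁ : ℝ, 0 < κ₁ → ∀ ε₁ : ℝ, 0 < ε₁ → ∃ ε : ℝ, 0 < ε ∧ ε < ε₁ ∧ ∃ κ : ℝ, 0 < κ ∧ ∃ t₀ : ℝ,
      ∀ t : ℝ, t₀ ≤ t → ∀ F : Finset (ℕ × ℕ × ℕ),
        (F : Set _) ⊆ Exceptions (Near m N δ) ε κ t ρ → (F.card : ℝ) ≤ κ₁ / ε ^ 2) := by
  refine ⟨lower m hm N hN δ hδ ρ hρ, ?_, ?_⟩
  · intro h κ₁ hκ₁ ε₁ hε₁
    set e : ℝ := min (ε₁ / 2) (1 / 2) with he
    have he0 : 0 < e := by positivity
    have he1 : e ≤ 1 / 2 := min_le_right _ _
    have hee : e < ε₁ := (min_le_left _ _).trans_lt (by linarith)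
    obtain ⟨C, hC⟩ := h e he0
    -- `c < C H ^ (1 + e)` gives `H ≥ (c / C) ^ (1 / (1 + e)) ≥ κ c ^ (1 - e)`
    set Z : ℝ := max C 1 with hZ
    have hZ1 : 1 ≤ Z := le_max_right _ _
    refine ⟨e, he0, hee, 1 / Z, by positivity, 1, fun t ht F hF => ?_⟩
    have hempty : F = ∅ := by
      rw [Finset.eq_empty_iff_forall_notMem]
      intro x hx
      obtain ⟨⟨hT, -⟩, -, -, hlt⟩ := hF hx
      have hh := hC _ _ _ hT trivial
      obtain ⟨-, -, -, hHp⟩ := triple_data hT
      have hc1 : (1 : ℝ) ≤ (x.2.2 : ℝ) := by exact_mod_cast hT.c_pos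
      have hc0 : (0 : ℝ) < (x.2.2 : ℝ) := by linarith
      have hpow : 0 < H (x.1 * x.2.1 * x.2.2) ^ (1 + e) := Real.rpow_pos_of_pos hHp _
      have h1 : (x.2.2 : ℝ) < Z * H (x.1 * x.2.1 * x.2.2) ^ (1 + e) :=
        hh.trans_le (mul_le_mul_of_nonneg_right (le_max_left _ _) hpow.le)
      have h2 : H (x.1 * x.2.1 * x.2.2) ^ (1 + e) ≤
          (1 / Z * (x.2.2 : ℝ) ^ (1 - e)) ^ (1 + e) :=
        Real.rpow_le_rpow hHp.le hlt.le (by linarith)
      have h3 : (1 / Z * (x.2.2 : ℝ) ^ (1 - e)) ^ (1 + e) ≤ 1 / Z * (x.2.2 : ℝ) := by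
        rw [Real.mul_rpow (by positivity) (by positivity), ← Real.rpow_mul hc0.le]
        apply mul_le_mul
        · have h4 : 1 / Z ≤ 1 := by
            rw [div_le_one (by linarith)]
            exact hZ1
          calc (1 / Z) ^ (1 + e) ≤ (1 / Z) ^ (1 : ℝ) :=
                Real.rpow_le_rpow_of_exponent_ge (by positivity) h4 (by linarith)
            _ = 1 / Z := Real.rpow_one _
        · calc (x.2.2 : ℝ) ^ ((1 - e) * (1 + e)) ≤ (x.2.2 : ℝ) ^ (1 : ℝ) :=
                Real.rpow_le_rpow_of_exponent_le hc1 (by nlinarith)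
            _ = x.2.2 := Real.rpow_one _
        · positivity
        · positivity
      have h4 : Z * H (x.1 * x.2.1 * x.2.2) ^ (1 + e) ≤ Z * (1 / Z * (x.2.2 : ℝ)) :=
        mul_le_mul_of_nonneg_left (h2.trans h3) (by linarith)
      have h5 : Z * (1 / Z * (x.2.2 : ℝ)) = x.2.2 := by
        field_simp
      rw [h5] at h4
      linarith
    rw [hempty]
    simp only [Finset.card_empty, Nat.cast_zero]
    positivity
  · intro h
    by_contra hcon
    obtain ⟨c, hc, hlow⟩ := lower m hm N hN δ hδ ρ hρ hcon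
    obtain ⟨ε, hε, hεc, κ, hκ, t₀, hup⟩ := h (c / 2) (by positivity) c hc
    obtain ⟨t, ht, F, hF, hcard⟩ := hlow ε hε hεc κ hκ t₀
    have h1 := hup t ht F hF
    have h2 : c / 2 / ε ^ 2 < c / ε ^ 2 := by
      apply div_lt_div_of_pos_right _ (by positivity)
      linarith
    linarith

end swarms

/-- Let `m, N ≥ 1` and `δ > 0`, and consider the admissible triples with `a` and `c` perfect `m`-th
powers, `N ∣ a` and `a ≤ δ c`.
(1) There is `D` such that for all `ε > 0`: if `c < C H(abc) ^ (1 + ε')` holds for these triples, where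
`ε' = ε / (1 + D (1 + ε))`, then `c < C' H(abc) ^ (1 + ε)` holds for all admissible triples.
(2) If the statement of the question is false, then for every `ρ > 0` there is `c₀ > 0` such that for all
positive `ε < c₀`, all `κ > 0` and all `t₀` there is `t ≥ t₀` such that at least `c₀ / ε ^ 2` of these
triples satisfy `t ≤ c ≤ t ^ (1 + ρ)` and `H(abc) < κ c ^ (1 - ε)`.
(3) Hence, for every `ρ > 0`, the statement of the question is true if and only if for every `κ₁ > 0`
there are arbitrarily small `ε > 0` and `κ > 0`, `t₀` such that for all `t ≥ t₀` at most `κ₁ / ε ^ 2` of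
these triples satisfy both. -/
theorem result (m : ℕ) (hm : 1 ≤ m) (N : ℕ) (hN : 1 ≤ N) (δ : ℝ) (hδ : 0 < δ) :
    (∃ D : ℕ, ∀ ε : ℝ, 0 < ε → Holds (Near m N δ) (ε / (1 + D * (1 + ε))) →
      Holds (fun _ _ _ => True) ε) ∧
    (∀ ρ : ℝ, 0 < ρ → ¬ Q1 → ∃ c₀ : ℝ, 0 < c₀ ∧ ∀ ε : ℝ, 0 < ε → ε < c₀ → ∀ κ : ℝ, 0 < κ →
      ∀ t₀ : ℝ, ∃ t : ℝ, t₀ ≤ t ∧ ∃ F : Finset (ℕ × ℕ × ℕ),
        (F : Set _) ⊆ Exceptions (Near m N δ) ε κ t ρ ∧ c₀ / ε ^ 2 ≤ (F.card : ℝ)) ∧
    (∀ ρ : ℝ, 0 < ρ → (Q1 ↔ ∀ κ₁ : ℝ, 0 < κ₁ → ∀ ε₁ : ℝ, 0 < ε₁ → ∃ ε : ℝ, 0 < ε ∧ ε < ε₁ ∧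
      ∃ κ : ℝ, 0 < κ ∧ ∃ t₀ : ℝ, ∀ t : ℝ, t₀ ≤ t → ∀ F : Finset (ℕ × ℕ × ℕ),
        (F : Set _) ⊆ Exceptions (Near m N δ) ε κ t ρ → (F.card : ℝ) ≤ κ₁ / ε ^ 2)) :=
  ⟨explicit m hm N hN δ hδ, fun ρ hρ => (few m hm N hN δ hδ ρ hρ).1,
    fun ρ hρ => (few m hm N hN δ hδ ρ hρ).2⟩

end Pool.Agent.Results.MP_14cf73_nt.OneCuspSwarms
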