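import Pool.Agent.V8H8.HR.NearQ
import Pool.Agent.Results.MP_14cf73_nt.LargerConstant

/-!
# Perfect powers with a small `H (abc)` near one cusp

`H (n) = γ (n) / (log γ (n)) ^ ω (n)`. Let `m, N ≥ 1` and `δ > 0`. There is `κ > 0` such that there are
infinitely many admissible triples with `a` and `c` perfect `m`-th powers, `N ∣ a`, `a ≤ δ c` and
`c > H exp (κ log H / log log H)`, `H = max (H (abc), e ^ e)`.
-/

set_option autoImplicit false

namespace Pool.Agent.Results.MP_14cf73_nt.PowersSmallH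

/-- `γ(n)`, the product of the primes dividing `n` -/
def radical (n : ℕ) : ℕ := ∏ p ∈ n.primeFactors, p

/-- `ω(n)`, the number of primes dividing `n` -/
def omega (n : ℕ) : ℕ := n.primeFactors.card

/-- `H(n) = γ(n) / (log γ(n)) ^ ω(n)` -/
noncomputable def H (n : ℕ) : ℝ := (radical n : ℝ) / Real.log (radical n : ℝ) ^ omega n

/-- `max (H(n), e ^ e)` -/
noncomputable def H' (n : ℕ) : ℝ := max (H n) (Real.exp (Real.exp 1))

/-- admissible triples -/
structure Admissible (a b c : ℕ) : Prop where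
  a_pos : 0 < a
  b_pos : 0 < b
  sum : a + b = c
  coprime : Nat.Coprime a b

open Pool.Agent.V8H8.HR

lemma radical_eq (n : ℕ) : radical n = rad n := rfl

lemma adm_iff {a b c : ℕ} : Admissible a b c ↔ Adm a b c :=
  ⟨fun h => ⟨h.a_pos, h.b_pos, h.sum, h.coprime⟩, fun h => ⟨h.a0, h.b0, h.sum, h.cop⟩⟩

lemma three_le {a b c : ℕ} (h : Adm a b c) (hc : 2 < c) : 3 ≤ rad (a * b * c) := by
  have ha0 := h.a0
  have hb0 := h.b0
  have hs := h.sum
  have hne : a * b * c ≠ 0 := by
    have : 0 < c := by omega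
    positivity
  have key : ∀ m : ℕ, Odd m → 3 ≤ m → m ∣ a * b * c → 3 ≤ rad (a * b * c) := by
    intro m hodd hm hdvd
    have hp : (Nat.minFac m).Prime := Nat.minFac_prime (by omega)
    have hpm : Nat.minFac m ∣ m := Nat.minFac_dvd m
    have hp2 : Nat.minFac m ≠ 2 := by
      intro h2
      rw [h2] at hpm
      exact (Nat.not_even_iff_odd.2 hodd) (even_iff_two_dvd.2 hpm)
    have hp3 : 3 ≤ Nat.minFac m := by
      have := hp.two_le
      omega
    have hmem : Nat.minFac m ∈ (a * b * c).primeFactors :=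
      Nat.mem_primeFactors.2 ⟨hp, hpm.trans hdvd, hne⟩
    have h1 : Nat.minFac m ∣ rad (a * b * c) := Finset.dvd_prod_of_mem (fun p => p) hmem
    exact hp3.trans (Nat.le_of_dvd (rad_pos _) h1)
  rcases Nat.even_or_odd c with hce | hco
  · have hao : Odd a := by
      by_contra hcon
      rw [Nat.not_odd_iff_even] at hcon
      have h1 : Even b := by
        rw [← hs] at hce
        exact (Nat.even_add.1 hce).1 hcon
      have h2 := Nat.dvd_gcd hcon.two_dvd h1.two_dvd
      rw [h.cop] at h2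
      omega
    have hbo : Odd b := by
      by_contra hcon
      rw [Nat.not_odd_iff_even] at hcon
      have h1 : Even a := by
        rw [← hs] at hce
        exact (Nat.even_add.1 hce).2 hcon
      exact (Nat.not_even_iff_odd.2 hao) h1
    obtain ⟨x, hx⟩ := hao
    obtain ⟨y, hy⟩ := hbo
    rcases Nat.lt_or_ge a 3 with h3 | h3
    · exact key b ⟨y, hy⟩ (by omega) ((dvd_mul_left b a).mul_right c)
    · exact key a ⟨x, hx⟩ h3 ((dvd_mul_right a b).mul_right c)
  · exact key c hco hc (dvd_mul_left c _)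

lemma one_lt_log3 : 1 < Real.log 3 := by
  rw [Real.lt_log_iff_exp_lt (by norm_num)]
  exact Real.exp_one_lt_three

lemma one_lt_log {n : ℕ} (h : 3 ≤ rad n) : 1 < Real.log (rad n : ℝ) := by
  have h1 : (3 : ℝ) ≤ (rad n : ℝ) := by exact_mod_cast h
  exact one_lt_log3.trans_le (Real.log_le_log (by norm_num) h1)

lemma H_pos {n : ℕ} (h : 3 ≤ rad n) : 0 < H n := by
  have h1 := one_lt_log h
  have h2 : (0 : ℝ) < rad n := by exact_mod_cast rad_pos n
  unfold H
  rw [radical_eq]
  positivity

lemma H_le {n n' : ℕ} (h3 : 3 ≤ rad n) (hsub : n.primeFactors ⊆ n'.primeFactors) {k : ℝ}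
    (hk : (rad n' : ℝ) ≤ k * rad n) : H n' ≤ k * H n := by
  have h1 := one_lt_log h3
  have h2 : (0 : ℝ) < rad n := by exact_mod_cast rad_pos n
  have h2' : (0 : ℝ) < rad n' := by exact_mod_cast rad_pos n'
  have hle : rad n ≤ rad n' := by
    apply Finset.prod_le_prod_of_subset_of_one_le' hsub
    intro p hp _
    exact (Nat.prime_of_mem_primeFactors hp).one_le
  have hle' : (rad n : ℝ) ≤ rad n' := by exact_mod_cast hle
  have hlog := Real.log_le_log h2 hle'
  have hcard : omega n ≤ omega n' := Finset.card_le_card hsub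
  have h4 : Real.log (rad n : ℝ) ^ omega n ≤ Real.log (rad n' : ℝ) ^ omega n' := by
    calc Real.log (rad n : ℝ) ^ omega n ≤ Real.log (rad n' : ℝ) ^ omega n :=
          pow_le_pow_left₀ (by linarith) hlog _
      _ ≤ Real.log (rad n' : ℝ) ^ omega n' := pow_le_pow_right₀ (by linarith) hcard
  have h5 : 0 < Real.log (rad n : ℝ) ^ omega n := by positivity
  unfold H
  rw [radical_eq, radical_eq]
  calc (rad n' : ℝ) / Real.log (rad n' : ℝ) ^ omega n' ≤ rad n' / Real.log (rad n : ℝ) ^ omega n :=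
        div_le_div_of_nonneg_left h2'.le h5 h4
    _ ≤ k * rad n / Real.log (rad n : ℝ) ^ omega n := div_le_div_of_nonneg_right hk h5.le
    _ = k * (rad n / Real.log (rad n : ℝ) ^ omega n) := by ring

lemma div_log_mono {t T : ℝ} (ht : Real.exp 1 ≤ t) (hT : t ≤ T) : t / Real.log t ≤ T / Real.log T := by
  have ht0 : 0 < t := (Real.exp_pos 1).trans_le ht
  have hT0 : 0 < T := ht0.trans_le hT
  have h1 : 1 ≤ Real.log t := by
    rw [Real.le_log_iff_exp_le ht0]
    exact ht
  have h2 : 1 ≤ Real.log T := h1.trans (Real.log_le_log ht0 hT)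
  rw [div_le_div_iff₀ (by linarith) (by linarith)]
  have h3 : Real.log T = Real.log t + Real.log (T / t) := by
    rw [Real.log_div hT0.ne' ht0.ne']
    ring
  have h4 : Real.log (T / t) ≤ T / t - 1 := Real.log_le_sub_one_of_pos (by positivity)
  have h5 : t * Real.log (T / t) ≤ T - t := by
    calc t * Real.log (T / t) ≤ t * (T / t - 1) := mul_le_mul_of_nonneg_left h4 ht0.le
      _ = T - t := by field_simp
  have h6 : 0 ≤ (T - t) * (Real.log t - 1) := mul_nonneg (by linarith) (by linarith)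
  rw [h3]
  nlinarith

/-- the inequality between real numbers -/
lemma ineq {x h h1 l κ D : ℝ} (hD : 0 ≤ D) (hκ : κ = 1 / (4 * (D + 1))) (hh : Real.exp 1 ≤ h)
    (hl : 0 ≤ l) (hx1 : 8 * l + 3 ≤ x) (hx2 : 64 * l ^ 2 + 1 ≤ x) (hx : h + 2 * h / Real.log h < x)
    (hh1 : Real.exp 1 ≤ h1) (hh1x : h1 ≤ (D + 1) * x) : h + 2 * l + κ * h1 / Real.log h1 < x := by
  have hx0 : 0 < x := by linarith
  have h0 : 0 < h := (Real.exp_pos 1).trans_le hh
  have hlogh : 1 ≤ Real.log h := by
    rw [Real.le_log_iff_exp_le h0]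
    exact hh
  have hhx : h ≤ x := by
    have : 0 ≤ 2 * h / Real.log h := by positivity
    linarith
  have hlogx : 1 ≤ Real.log x := hlogh.trans (Real.log_le_log h0 hhx)
  have hκ0 : 0 < κ := by rw [hκ]; positivity
  have e1 : κ * h1 / Real.log h1 ≤ x / Real.log x / 4 := by
    have hT := div_log_mono hh1 hh1x
    have hT2 : (D + 1) * x / Real.log ((D + 1) * x) ≤ (D + 1) * x / Real.log x := by
      apply div_le_div_of_nonneg_left (by positivity) (by linarith)
      apply Real.log_le_log hx0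
      nlinarith
    calc κ * h1 / Real.log h1 = κ * (h1 / Real.log h1) := by ring
      _ ≤ κ * ((D + 1) * x / Real.log x) := mul_le_mul_of_nonneg_left (hT.trans hT2) hκ0.le
      _ = x / Real.log x / 4 := by
        rw [hκ]
        field_simp
  rcases le_or_gt (2 * h) x with hc | hc
  · have h2 : x / Real.log x ≤ x := by
      rw [div_le_iff₀ (by linarith)]
      nlinarith
    linarith
  · -- `x / log x` is large
    have h2 : x / Real.log x ≤ 2 * h / Real.log h := by
      rw [div_le_div_iff₀ (by linarith) (by linarith)]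
      have h3 := Real.log_le_log h0 hhx
      calc x * Real.log h ≤ (2 * h) * Real.log h := mul_le_mul_of_nonneg_right hc.le (by linarith)
        _ ≤ (2 * h) * Real.log x := mul_le_mul_of_nonneg_left h3 (by linarith)
    have h3 : 4 * l ≤ x / Real.log x := by
      rw [le_div_iff₀ (by linarith)]
      have h4 : Real.log x ≤ 2 * √x := by
        have h5 : Real.log x = 2 * Real.log (√x) := by
          have h6 : Real.log (√x ^ 2) = 2 * Real.log (√x) := by
            rw [Real.log_pow]
            norm_num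
          rw [← h6, Real.sq_sqrt hx0.le]
        have h7 := Real.log_le_sub_one_of_pos (Real.sqrt_pos.2 hx0)
        linarith
      have h8 : 8 * l ≤ √x := Real.le_sqrt_of_sq_le (by nlinarith)
      calc 4 * l * Real.log x ≤ 4 * l * (2 * √x) := mul_le_mul_of_nonneg_left h4 (by linarith)
        _ = (8 * l) * √x := by ring
        _ ≤ √x * √x := mul_le_mul_of_nonneg_right h8 (Real.sqrt_nonneg x)
        _ = x := Real.mul_self_sqrt hx0.le
    have h4 : 0 < x / Real.log x := by positivity
    linarith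

/-- Let `m, N ≥ 1` and `δ > 0`. There is `κ > 0` such that for every `X` there is an admissible triple
with `c > X`, `a` and `c` perfect `m`-th powers, `N ∣ a` and `a ≤ δ c`, such that
`c > H exp (κ log H / log log H)` where `H = max (H(abc), e ^ e)`. -/
theorem result (m : ℕ) (hm : 1 ≤ m) (N : ℕ) (hN : 1 ≤ N) (δ : ℝ) (hδ : 0 < δ) :
    ∃ κ : ℝ, 0 < κ ∧ ∀ X : ℝ, ∃ a b c : ℕ, Admissible a b c ∧ X < c ∧ (∃ x, a = x ^ m) ∧
      (∃ z, c = z ^ m) ∧ N ∣ a ∧ (a : ℝ) ≤ δ * c ∧
      H' (a * b * c) * Real.exp (κ * Real.log (H' (a * b * c)) /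
        Real.log (Real.log (H' (a * b * c)))) < c := by
  obtain ⟨D, L, hD, hreg⟩ := region N (by omega) hδ m hm
  refine ⟨1 / (4 * ((D : ℝ) + 1)), by positivity, fun X => ?_⟩
  set κ : ℝ := 1 / (4 * ((D : ℝ) + 1)) with hκ
  set l : ℝ := Real.log (max (L : ℝ) 1) with hl
  have hL1 : (1 : ℝ) ≤ max (L : ℝ) 1 := le_max_right _ _
  have hl0 : 0 ≤ l := Real.log_nonneg hL1
  set B : ℝ := max (8 * l + 3) (max (64 * l ^ 2 + 1) (|Real.log (max X 1)| + l + 1)) with hB
  have hK : (2 : ℝ) < 2 + 2 * Real.log (3 / 2) := by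
    have : 0 < Real.log (3 / 2 : ℝ) := Real.log_pos (by norm_num)
    linarith
  obtain ⟨a, b, c, ha, hb, habc, hcop, hcX, hlt⟩ :=
    Pool.Agent.Results.MP_14cf73_nt.LargerConstant.result 2 hK (Real.exp B)
  have hHeq : Pool.Agent.Results.MP_14cf73_nt.LargerConstant.H' = H' := rfl
  rw [hHeq] at hlt
  have h : Adm a b c := ⟨ha, hb, habc, hcop⟩
  have hc0 : (0 : ℝ) < c := (Real.exp_pos B).trans hcX
  set x : ℝ := Real.log c with hx
  have hxB : B < x := by
    rw [hx, Real.lt_log_iff_exp_lt hc0]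
    exact hcX
  have b1 : 8 * l + 3 ≤ x := (le_max_left _ _).trans hxB.le
  have b2 : 64 * l ^ 2 + 1 ≤ x := ((le_max_left _ _).trans (le_max_right _ _)).trans hxB.le
  have b3 : |Real.log (max X 1)| + l + 1 ≤ x :=
    ((le_max_right _ _).trans (le_max_right _ _)).trans hxB.le
  have hc2 : 2 < c := by
    have h1 : (2 : ℝ) < c := by
      have h2 : Real.exp 1 < c := by
        refine lt_of_le_of_lt (Real.exp_le_exp.2 ?_) hcX
        exact (by linarith : (1 : ℝ) ≤ 8 * l + 3).trans (le_max_left _ _)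
      have := Real.add_one_le_exp (1 : ℝ)
      linarith
    exact_mod_cast h1
  obtain ⟨d, a', b', c', hd1, hdD, hA', hS, hx', hz', hNa, hle⟩ := hreg a b c h hc2
  have hr3 := three_le h hc2
  have hHp := H_pos hr3
  have hrad : (rad (a' * b' * c') : ℝ) ≤ (L * (c : ℝ) ^ (d - 1)) * rad (a * b * c) := by
    exact_mod_cast hS.rad
  have hHle : H (a' * b' * c') ≤ (L * (c : ℝ) ^ (d - 1)) * H (a * b * c) := H_le hr3 hS.sub hrad
  have hlow : (c : ℝ) ^ d ≤ L * c' := by exact_mod_cast hS.low
  have hc'0 : (0 : ℝ) < c' := by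
    have h1 := hA'.a0
    have h2 := hA'.sum
    have : 0 < c' := by omega
    exact_mod_cast this
  have hc1 : (1 : ℝ) ≤ c := by
    have : 1 ≤ c := by omega
    exact_mod_cast this
  set M : ℝ := max (L : ℝ) 1 with hM
  have hM0 : 0 < M := by linarith
  have hLM : (L : ℝ) ≤ M := le_max_left _ _
  have hcd : 0 < (c : ℝ) ^ (d - 1) := by positivity
  have hcd1 : 1 ≤ (c : ℝ) ^ (d - 1) := one_le_pow₀ hc1
  -- the numbers `h`, `h1`
  have hee : 0 < Real.exp (Real.exp 1) := Real.exp_pos _
  have hH'pos : ∀ n, 0 < H' n := fun n => hee.trans_le (le_max_right _ _)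
  have hh : ∀ n, Real.exp 1 ≤ Real.log (H' n) := fun n => by
    rw [Real.le_log_iff_exp_le (hH'pos n)]
    exact le_max_right _ _
  have hH'le : H' (a' * b' * c') ≤ (M * (c : ℝ) ^ (d - 1)) * H' (a * b * c) := by
    have hfac : 1 ≤ M * (c : ℝ) ^ (d - 1) := by
      calc (1 : ℝ) = 1 * 1 := (mul_one _).symm
        _ ≤ M * (c : ℝ) ^ (d - 1) := mul_le_mul hL1 hcd1 zero_le_one hM0.le
    refine max_le ?_ ?_
    · refine hHle.trans ?_
      apply mul_le_mul (mul_le_mul_of_nonneg_right hLM hcd.le) (le_max_left _ _) hHp.le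
      positivity
    · calc Real.exp (Real.exp 1) ≤ H' (a * b * c) := le_max_right _ _
        _ ≤ (M * (c : ℝ) ^ (d - 1)) * H' (a * b * c) := le_mul_of_one_le_left (hH'pos _).le hfac
  set y : ℝ := Real.log (H' (a * b * c)) with hy
  set y' : ℝ := Real.log (H' (a' * b' * c')) with hy'
  have hyx : y + 2 * y / Real.log y < x := by
    have h1 := Real.log_lt_log (by have := hH'pos (a * b * c); positivity) hlt
    rw [Real.log_mul (hH'pos _).ne' (Real.exp_pos _).ne', Real.log_exp] at h1
    exact h1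
  have hd' : ((d - 1 : ℕ) : ℝ) = (d : ℝ) - 1 := by
    push_cast [Nat.cast_sub hd1]
    ring
  have hy'le : y' ≤ l + ((d : ℝ) - 1) * x + y := by
    have h1 := Real.log_le_log (hH'pos _) hH'le
    rw [Real.log_mul (by positivity) (hH'pos _).ne', Real.log_mul hM0.ne' hcd.ne', Real.log_pow,
      hd'] at h1
    exact h1
  have hc'le : (d : ℝ) * x - l ≤ Real.log c' := by
    have h1 : (c : ℝ) ^ d ≤ M * c' := hlow.trans (mul_le_mul_of_nonneg_right hLM hc'0.le)
    have h2 := Real.log_le_log (by positivity) h1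
    rw [Real.log_pow, Real.log_mul hM0.ne' hc'0.ne'] at h2
    linarith
  have hypos : 0 < y := (Real.exp_pos 1).trans_le (hh _)
  have hlogy : 1 ≤ Real.log y := by
    rw [Real.le_log_iff_exp_le hypos]
    exact hh _
  have hyx' : y ≤ x := by
    have : 0 ≤ 2 * y / Real.log y := by positivity
    linarith
  have hd1' : (1 : ℝ) ≤ d := by exact_mod_cast hd1
  have hdD' : (d : ℝ) ≤ D := by exact_mod_cast hdD
  have hx0 : 0 < x := by linarith
  have hy'x : y' ≤ ((D : ℝ) + 1) * x := by
    have h1 : (d : ℝ) * x ≤ D * x := mul_le_mul_of_nonneg_right hdD' hx0.le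
    have e : ((D : ℝ) + 1) * x = D * x + x := by ring
    have e2 : ((d : ℝ) - 1) * x = d * x - x := by ring
    rw [e]
    rw [e2] at hy'le
    linarith
  have key := ineq (Nat.cast_nonneg D) hκ (hh _) hl0 b1 b2 hyx (hh (a' * b' * c')) hy'x
  refine ⟨a', b', c', adm_iff.2 hA', ?_, hx', hz', hNa, hle, ?_⟩
  · have h1 : Real.log (max X 1) < Real.log c' := by
      have h2 := le_abs_self (Real.log (max X 1))
      have h3 : x ≤ d * x := le_mul_of_one_le_left hx0.le hd1'
      linarith
    have h2 : 0 < max X 1 := lt_max_of_lt_right one_pos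
    exact (le_max_left _ _).trans_lt ((Real.log_lt_log_iff h2 hc'0).1 h1)
  · rw [← Real.log_lt_log_iff (mul_pos (hH'pos _) (Real.exp_pos _)) hc'0,
      Real.log_mul (hH'pos _).ne' (Real.exp_pos _).ne', Real.log_exp, ← hy']
    have e2 : ((d : ℝ) - 1) * x = d * x - x := by ring
    rw [e2] at hy'le
    linarith

end Pool.Agent.Results.MP_14cf73_nt.PowersSmallH
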