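import Pool.Agent.V8H4.SH.Law

/-!
# The second order term for almost all admissible triples: `c = H (abc) ^ (1/3) exp ((log log c) ^ 2 + ...)`

`H (n) = γ (n) / (log γ (n)) ^ ω (n)`. The starting theorem `AlmostAllByRadical` of this problem shows
that `1/3` is the critical exponent for almost all admissible triples ordered by the radical `γ (abc)`
(of whatever height): `c < C H (abc) ^ M` holds for almost all of them if `M > 1/3` and for none if
`M ≤ 1/3`. Here the inequality at the critical exponent is decided: `c < H (abc) ^ (1/3) F (c)` holds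
for almost all triples for `F (c) = exp (K (log log c) ^ 2)`, `K > 1`, and for almost none for `K < 1`;
and the ratio `c / H (abc) ^ (1/3)` is `exp ((log log γ) ^ 2)` up to `exp (ψ (log log γ) ^ (3/2))`, for
every function `ψ` which tends to infinity.

Proof. By the distribution of `c / γ ^ (1/3)` (starting library of `MP_7aad9f_nt.JointLaw`) almost all
triples have `c ≤ L γ ^ (1/3)`, and the inequality of Turán for the pairs `(a, b)` in a square gives the
number of the prime factors of `abc`.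
-/

set_option autoImplicit false

namespace Pool.Agent.Results.MP_14cf73_nt.SharpAlmostAll

open Filter Topology

/-- `γ(n)`, the product of the primes dividing `n` -/
def radical (n : ℕ) : ℕ := ∏ p ∈ n.primeFactors, p

/-- `ω(n)`, the number of primes dividing `n` -/
def omega (n : ℕ) : ℕ := n.primeFactors.card

/-- `H(n) = γ(n) / (log γ(n)) ^ ω(n)` -/
noncomputable def H (n : ℕ) : ℝ := (radical n : ℝ) / Real.log (radical n : ℝ) ^ omega n

/-- the product `abc` for the triple `(a, b, a + b)` written `(a, b)` -/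
def prod3 (t : ℕ × ℕ) : ℕ := t.1 * t.2 * (t.1 + t.2)

/-- the admissible triples `(a, b, a + b)`, `a ≤ b`, written `(a, b)`, with `γ(abc) ≤ X`; there is
no condition on the size of `c = a + b` -/
def triples (X : ℝ) : Set (ℕ × ℕ) :=
  {t | 0 < t.1 ∧ t.1 ≤ t.2 ∧ Nat.Coprime t.1 t.2 ∧ (radical (prod3 t) : ℝ) ≤ X}

/-- `P` holds for almost all admissible triples ordered by `γ(abc)`: the proportion of those for
which it fails tends to zero -/
def AlmostAll (P : ℕ × ℕ → Prop) : Prop :=
  Tendsto (fun X : ℝ => ({t | t ∈ triples X ∧ ¬ P t}.ncard : ℝ) / ((triples X).ncard : ℝ))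
    atTop (𝓝 0)

theorem triples_eq (X : ℝ) : triples X = Pool.Agent.Results.MP_7aad9f_nt.JointLaw.triples X := by
  ext t
  exact ⟨fun h => ⟨⟨h.1, h.2.1, h.2.2.1⟩, h.2.2.2⟩, fun h => ⟨h.1.1, h.1.2.1, h.1.2.2, h.2⟩⟩

theorem rad_eq (t : ℕ × ℕ) :
    radical (prod3 t) = Pool.Agent.Results.MP_7aad9f_nt.JointLaw.rad3 t := rfl

theorem fin (X : ℝ) : (triples X).Finite := by
  rw [triples_eq]
  exact Pool.Agent.Results.MP_7aad9f_nt.JointLaw.result.choose_spec.choose_spec.2.2.2.2.1 X

theorem total : ∃ κ : ℝ, 0 < κ ∧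
    Tendsto (fun X : ℝ => ((triples X).ncard : ℝ) / X ^ ((2 : ℝ) / 3)) atTop (𝓝 κ) := by
  obtain ⟨c₀, κ, hc₀, hκ, -, -, hfin, htot, -⟩ := Pool.Agent.Results.MP_7aad9f_nt.JointLaw.result
  refine ⟨κ, hκ, ?_⟩
  simp only [triples_eq]
  exact htot

/-- from the normalisation by `X ^ (2/3)` to proportions -/
theorem almostAll_of {P : ℕ × ℕ → Prop}
    (h : Tendsto (fun X : ℝ => ({t | t ∈ triples X ∧ ¬ P t}.ncard : ℝ) / X ^ ((2 : ℝ) / 3))
      atTop (𝓝 0)) : AlmostAll P := by
  obtain ⟨κ, hκ, h1⟩ := total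
  have h2 := h.div h1 hκ.ne'
  rw [zero_div] at h2
  refine h2.congr' ?_
  filter_upwards [eventually_gt_atTop 0] with X hX
  have : (0 : ℝ) < X ^ ((2 : ℝ) / 3) := by positivity
  simp only [Pi.div_apply]
  rw [div_div_div_cancel_right₀ this.ne']

theorem almostAll_to {P : ℕ × ℕ → Prop} (h : AlmostAll P) :
    Tendsto (fun X : ℝ => ({t | t ∈ triples X ∧ ¬ P t}.ncard : ℝ) / X ^ ((2 : ℝ) / 3))
      atTop (𝓝 0) := by
  obtain ⟨κ, hκ, h1⟩ := total
  have h2 := Filter.Tendsto.mul h h1
  rw [zero_mul] at h2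
  refine h2.congr' ?_
  have h3 : ∀ᶠ X : ℝ in atTop, 0 < ((triples X).ncard : ℝ) / X ^ ((2 : ℝ) / 3) :=
    h1.eventually (lt_mem_nhds hκ)
  filter_upwards [eventually_gt_atTop 0, h3] with X hX hX3
  have h4 : (0 : ℝ) < X ^ ((2 : ℝ) / 3) := by positivity
  have h5 : ((triples X).ncard : ℝ) ≠ 0 := by
    intro h6
    rw [h6, zero_div] at hX3
    exact lt_irrefl _ hX3
  field_simp

/-- finitely many values of the radical do not matter -/
theorem mono {P Q : ℕ × ℕ → Prop} (R : ℝ) (h : AlmostAll P)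
    (hPQ : ∀ t, t ∈ triples (radical (prod3 t)) → R ≤ radical (prod3 t) → P t → Q t) :
    AlmostAll Q := by
  refine almostAll_of ?_
  have h1 := almostAll_to h
  have h2 : Tendsto (fun X : ℝ => ((triples R).ncard : ℝ) / X ^ ((2 : ℝ) / 3)) atTop (𝓝 0) :=
    tendsto_const_nhds.div_atTop (tendsto_rpow_atTop (by norm_num))
  have h3 := h1.add h2
  rw [add_zero] at h3
  refine squeeze_zero' ?_ ?_ h3
  · filter_upwards [eventually_gt_atTop 0] with X hX
    positivity
  · filter_upwards [eventually_gt_atTop 0] with X hX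
    rw [← add_div]
    refine div_le_div_of_nonneg_right ?_ (by positivity)
    have h4 : {t | t ∈ triples X ∧ ¬ Q t} ⊆ {t | t ∈ triples X ∧ ¬ P t} ∪ triples R := by
      rintro t ⟨ht, hQ⟩
      rcases le_total R (radical (prod3 t) : ℝ) with h5 | h5
      · left
        exact ⟨ht, fun hP => hQ (hPQ t ⟨ht.1, ht.2.1, ht.2.2.1, le_rfl⟩ h5 hP)⟩
      · right
        exact ⟨ht.1, ht.2.1, ht.2.2.1, h5⟩
    have h5 := Set.ncard_le_ncard h4 (((fin X).subset fun t ht => ht.1).union (fin R))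
    exact_mod_cast h5.trans (Set.ncard_union_le _ _)

theorem two_le_radical {t : ℕ × ℕ} (h1 : 0 < t.1) (h2 : t.1 ≤ t.2) : 2 ≤ radical (prod3 t) := by
  have h4 : 1 < prod3 t := by
    unfold prod3
    have : 0 < t.2 := by omega
    nlinarith [Nat.mul_pos h1 this]
  obtain ⟨q, hq, hqd⟩ := Nat.exists_prime_and_dvd h4.ne'
  have hmem : q ∈ (prod3 t).primeFactors := Nat.mem_primeFactors.mpr ⟨hq, hqd, by omega⟩
  have h5 : q ∣ radical (prod3 t) := Finset.dvd_prod_of_mem _ hmem
  have h6 : 0 < radical (prod3 t) :=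
    Finset.prod_pos fun r hr => (Nat.prime_of_mem_primeFactors hr).pos
  exact hq.two_le.trans (Nat.le_of_dvd h6 h5)

theorem log_H {t : ℕ × ℕ} (h1 : 0 < t.1) (h2 : t.1 ≤ t.2) :
    0 < H (prod3 t) ∧ Real.log (H (prod3 t)) = Real.log (radical (prod3 t) : ℝ) -
      omega (prod3 t) * Real.log (Real.log (radical (prod3 t) : ℝ)) := by
  have h3 : (2 : ℝ) ≤ radical (prod3 t) := by exact_mod_cast two_le_radical h1 h2
  have h4 : 0 < Real.log (radical (prod3 t) : ℝ) := Real.log_pos (by linarith)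
  constructor
  · unfold H
    positivity
  · unfold H
    rw [Real.log_div (by linarith) (by positivity), Real.log_pow]

/-- the first statement -/
theorem first {ψ : ℕ → ℝ} (hψ : Tendsto ψ atTop atTop) : AlmostAll (fun t =>
    |Real.log ((t.1 + t.2 : ℕ) : ℝ) - Real.log (H (prod3 t)) / 3 -
      Real.log (Real.log (radical (prod3 t) : ℝ)) ^ 2| ≤
      ψ (radical (prod3 t)) * Real.log (Real.log (radical (prod3 t) : ℝ)) ^ ((3 : ℝ) / 2)) := by
  refine almostAll_of ?_
  have h := Pool.Agent.V8H4.SH.bad_zero (ψ := fun n => 3 * ψ n) (hψ.const_mul_atTop (by norm_num))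
  refine h.congr fun X => ?_
  congr 3
  ext t
  simp only [Pool.Agent.V8H4.SH.bad, Set.mem_ofPred_eq]
  rw [triples_eq]
  refine and_congr_right fun ht => ?_
  obtain ⟨h1, h2⟩ := log_H ht.1.1 ht.1.2.1
  have e : Pool.Agent.V8H4.SH.dv t = 3 * (Real.log ((t.1 + t.2 : ℕ) : ℝ) -
      Real.log (H (prod3 t)) / 3 - Real.log (Real.log (radical (prod3 t) : ℝ)) ^ 2) := by
    rw [h2]
    unfold Pool.Agent.V8H4.SH.dv Pool.Agent.V8H4.SH.om omega
    rw [← rad_eq]
    unfold prod3
    ring
  rw [e, abs_mul, not_le, ← rad_eq, abs_of_pos (by norm_num : (0 : ℝ) < 3), mul_assoc]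
  exact mul_lt_mul_iff_right₀ (by norm_num)

/-- the deviation is small compared with `(log log γ) ^ 2` -/
theorem small {ε : ℝ} (hε : 0 < ε) : AlmostAll (fun t =>
    |Real.log ((t.1 + t.2 : ℕ) : ℝ) - Real.log (H (prod3 t)) / 3 -
      Real.log (Real.log (radical (prod3 t) : ℝ)) ^ 2| ≤
      ε * Real.log (Real.log (radical (prod3 t) : ℝ)) ^ 2) := by
  have hψ : Tendsto (fun n : ℕ => ε * Real.log (Real.log (n : ℝ)) ^ ((1 : ℝ) / 2)) atTop atTop := by
    refine Tendsto.const_mul_atTop hε ?_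
    exact (tendsto_rpow_atTop (by norm_num)).comp (Real.tendsto_log_atTop.comp
      (Real.tendsto_log_atTop.comp tendsto_natCast_atTop_atTop))
  refine mono (Real.exp (Real.exp 1)) (first hψ) fun t ht hR h => ?_
  have hl1 : Real.exp 1 ≤ Real.log (radical (prod3 t) : ℝ) := by
    have := Real.log_le_log (Real.exp_pos _) hR
    rwa [Real.log_exp] at this
  have hl2 : 1 ≤ Real.log (Real.log (radical (prod3 t) : ℝ)) := by
    have := Real.log_le_log (Real.exp_pos _) hl1
    rwa [Real.log_exp] at this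
  refine h.trans (le_of_eq ?_)
  rw [mul_assoc, ← Real.rpow_add (by linarith), show (1 : ℝ) / 2 + 3 / 2 = (2 : ℕ) by norm_num,
    Real.rpow_natCast]

/-- **The second order term for almost all admissible triples, ordered by `γ(abc)`.** (1) For every
`ψ` tending to infinity, `log c = (1/3) log H(abc) + (log log γ(abc)) ^ 2` with an error of at most
`ψ(γ(abc)) (log log γ(abc)) ^ (3/2)`, for almost all triples. (2) For every `K < 1` almost all triples
satisfy `c > H(abc) ^ (1/3) exp (K (log log c) ^ 2)`. (3) For every `K > 1` almost all triples satisfy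
`c < H(abc) ^ (1/3) exp (K (log log c) ^ 2)`. -/
theorem result :
    (∀ ψ : ℕ → ℝ, Tendsto ψ atTop atTop → AlmostAll (fun t =>
      |Real.log ((t.1 + t.2 : ℕ) : ℝ) - Real.log (H (prod3 t)) / 3 -
        Real.log (Real.log (radical (prod3 t) : ℝ)) ^ 2| ≤
        ψ (radical (prod3 t)) * Real.log (Real.log (radical (prod3 t) : ℝ)) ^ ((3 : ℝ) / 2))) ∧
    (∀ K : ℝ, K < 1 → AlmostAll (fun t => H (prod3 t) ^ ((1 : ℝ) / 3) *
      Real.exp (K * Real.log (Real.log ((t.1 + t.2 : ℕ) : ℝ)) ^ 2) < ((t.1 + t.2 : ℕ) : ℝ))) ∧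
    (∀ K : ℝ, 1 < K → AlmostAll (fun t => ((t.1 + t.2 : ℕ) : ℝ) < H (prod3 t) ^ ((1 : ℝ) / 3) *
      Real.exp (K * Real.log (Real.log ((t.1 + t.2 : ℕ) : ℝ)) ^ 2))) := by
  -- growth: `12 (log log g) ^ 2 ≤ log g`
  have hgrow : ∃ R : ℝ, Real.exp (Real.exp 1) ≤ R ∧ ∀ g : ℝ, R ≤ g →
      6 * Real.log (Real.log g) ^ 2 ≤ Real.log g := by
    have h1 : Tendsto (fun x : ℝ => Real.log x ^ 2 / x) atTop (𝓝 0) := by
      have := Real.isLittleO_pow_log_id_atTop (n := 2)
      exact this.tendsto_div_nhds_zero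
    have h2 := (h1.comp Real.tendsto_log_atTop).eventually (gt_mem_nhds (by norm_num : (0:ℝ) < 1 / 6))
    obtain ⟨R, hR⟩ := Filter.eventually_atTop.1 (h2.and (eventually_gt_atTop 1))
    refine ⟨max R (Real.exp (Real.exp 1)), le_max_right _ _, fun g hg => ?_⟩
    obtain ⟨h3, h4⟩ := hR g ((le_max_left _ _).trans hg)
    have h5 : 0 < Real.log g := Real.log_pos h4
    simp only [Function.comp] at h3
    rw [div_lt_iff₀ h5] at h3
    linarith
  obtain ⟨R, hRe, hR⟩ := hgrow
  -- common facts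
  have key : ∀ t : ℕ × ℕ, t ∈ triples (radical (prod3 t)) → R ≤ radical (prod3 t) →
      0 < H (prod3 t) ∧ 1 ≤ Real.log (Real.log (radical (prod3 t) : ℝ)) ∧
      Real.log (radical (prod3 t) : ℝ) / 3 ≤ Real.log ((t.1 + t.2 : ℕ) : ℝ) ∧
      (Real.log ((t.1 + t.2 : ℕ) : ℝ) - Real.log (H (prod3 t)) / 3 -
        Real.log (Real.log (radical (prod3 t) : ℝ)) ^ 2 ≤
          1 * Real.log (Real.log (radical (prod3 t) : ℝ)) ^ 2 →
        Real.log ((t.1 + t.2 : ℕ) : ℝ) ≤ Real.log (radical (prod3 t) : ℝ)) := by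
    intro t ht hRt
    obtain ⟨h1, h2⟩ := log_H ht.1 ht.2.1
    have hl1 : Real.exp 1 ≤ Real.log (radical (prod3 t) : ℝ) := by
      have := Real.log_le_log (Real.exp_pos _) (hRe.trans hRt)
      rwa [Real.log_exp] at this
    have hl2 : 1 ≤ Real.log (Real.log (radical (prod3 t) : ℝ)) := by
      have := Real.log_le_log (Real.exp_pos _) hl1
      rwa [Real.log_exp] at this
    have hg0 : (0 : ℝ) < radical (prod3 t) := (Real.exp_pos _).trans_le (hRe.trans hRt)
    refine ⟨h1, hl2, ?_, fun h3 => ?_⟩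
    · have h3 : (radical (prod3 t) : ℝ) ≤ ((t.1 + t.2 : ℕ) : ℝ) ^ 3 := by
        have := Pool.Agent.V8H4.SH.rad3_le (t := t) ⟨ht.1, ht.2.1, ht.2.2.1⟩
        exact_mod_cast this
      have h4 := Real.log_le_log hg0 h3
      rw [Real.log_pow] at h4
      push_cast at h4 ⊢
      linarith
    · have h4 := hR _ hRt
      have h5 : 0 ≤ (omega (prod3 t) : ℝ) * Real.log (Real.log (radical (prod3 t) : ℝ)) := by
        positivity
      rw [h2] at h3
      have h6 := Real.exp_pos 1
      linarith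
  refine ⟨fun ψ hψ => first hψ, fun K hK => ?_, fun K hK => ?_⟩
  · obtain ⟨K', hK'1, hK'2, hK'3⟩ : ∃ K' : ℝ, K ≤ K' ∧ 0 ≤ K' ∧ K' < 1 :=
      ⟨max K 0, le_max_left _ _, le_max_right _ _, max_lt hK (by norm_num)⟩
    refine mono R (small (ε := (1 - K') / 2) (by linarith)) fun t ht hRt h => ?_
    obtain ⟨k1, k2, k3, k4⟩ := key t ht hRt
    set l := Real.log (Real.log (radical (prod3 t) : ℝ)) with hl
    set x := Real.log ((t.1 + t.2 : ℕ) : ℝ) with hx
    set y := Real.log (H (prod3 t)) with hy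
    rw [abs_le] at h
    have hl2 : 0 ≤ l ^ 2 := sq_nonneg _
    have h1 : x ≤ Real.log (radical (prod3 t) : ℝ) := k4 (by nlinarith [h.2])
    have hg1 : Real.exp 1 ≤ Real.log (radical (prod3 t) : ℝ) := by
      have := Real.log_le_log (Real.exp_pos _) (hRe.trans hRt)
      rwa [Real.log_exp] at this
    have hx0 : 0 < x := by
      have := Real.exp_pos 1
      linarith
    have h2 : Real.log x ≤ l := Real.log_le_log hx0 h1
    have h3 : -1 ≤ Real.log x := by
      have h4 : Real.exp (-1) ≤ x := by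
        have h5 : Real.exp (-1) * 3 ≤ Real.exp 1 := by
          have h6 : Real.exp (-1) < 0.368 := Real.exp_neg_one_lt_d9.trans (by norm_num)
          have h7 := Real.exp_one_gt_d9
          linarith
        linarith
      have := Real.log_le_log (Real.exp_pos _) h4
      rwa [Real.log_exp] at this
    have h4 : Real.log x ^ 2 ≤ l ^ 2 := by
      apply sq_le_sq'
      · linarith
      · exact h2
    have h5 : K * Real.log x ^ 2 ≤ K' * l ^ 2 :=
      (mul_le_mul_of_nonneg_right hK'1 (sq_nonneg _)).trans (mul_le_mul_of_nonneg_left h4 hK'2)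
    have h6 : 0 < (1 - K') / 2 * l ^ 2 := by
      have : 0 < l ^ 2 := by positivity
      have : 0 < (1 - K') / 2 := by linarith
      positivity
    have h7 : y * (1 / 3) + K * Real.log x ^ 2 < x := by nlinarith [h.1]
    have hc0 : (0 : ℝ) < ((t.1 + t.2 : ℕ) : ℝ) := by
      have := ht.1
      have : 0 < t.1 + t.2 := by omega
      exact_mod_cast this
    rw [Real.rpow_def_of_pos k1, ← Real.exp_add, ← hy]
    calc Real.exp (y * (1 / 3) + K * Real.log x ^ 2) < Real.exp x := Real.exp_lt_exp.2 h7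
      _ = ((t.1 + t.2 : ℕ) : ℝ) := by rw [hx, Real.exp_log hc0]
  · -- `K > 1`
    obtain ⟨δ, hδ0, hδ1, hδ2⟩ : ∃ δ : ℝ, 0 < δ ∧ δ ≤ 1 ∧ 1 + 2 * δ ≤ K :=
      ⟨min ((K - 1) / 2) 1, lt_min (by linarith) one_pos, min_le_right _ _,
        by linarith [min_le_left ((K - 1) / 2) 1]⟩
    refine mono (max R (Real.exp (Real.exp (12 * (1 + K) / δ)))) (small (ε := δ) hδ0)
      fun t ht hRt h => ?_
    obtain ⟨k1, k2, k3, k4⟩ := key t ht ((le_max_left _ _).trans hRt)
    have hl' : 12 * (1 + K) / δ ≤ Real.log (Real.log (radical (prod3 t) : ℝ)) := by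
      have h1 := Real.log_le_log (Real.exp_pos _) ((le_max_right _ _).trans hRt)
      rw [Real.log_exp] at h1
      have h2 := Real.log_le_log (Real.exp_pos _) h1
      rwa [Real.log_exp] at h2
    have hg0 : 0 < Real.log (radical (prod3 t) : ℝ) := by
      have h1 := Real.log_le_log (Real.exp_pos _) (hRe.trans ((le_max_left _ _).trans hRt))
      rw [Real.log_exp] at h1
      exact (Real.exp_pos _).trans_le h1
    set l := Real.log (Real.log (radical (prod3 t) : ℝ)) with hl
    set x := Real.log ((t.1 + t.2 : ℕ) : ℝ) with hx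
    set y := Real.log (H (prod3 t)) with hy
    rw [abs_le] at h
    have h2 : l - 2 ≤ Real.log x := by
      have h3 : Real.log (Real.log (radical (prod3 t) : ℝ) / 3) ≤ Real.log x :=
        Real.log_le_log (by positivity) k3
      rw [Real.log_div hg0.ne' (by norm_num), ← hl] at h3
      have h4 : Real.log 3 < 2 := by
        have h5 : Real.log 3 < Real.log (Real.exp 2) := by
          apply Real.log_lt_log (by norm_num)
          have h6 := Real.exp_one_gt_d9
          have h7 : Real.exp 2 = Real.exp 1 * Real.exp 1 := by rw [← Real.exp_add]; norm_num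
          nlinarith
        rwa [Real.log_exp] at h5
      linarith
    have hl12 : 12 * (1 + K) ≤ l * δ := by rwa [div_le_iff₀ hδ0] at hl'
    have hl2 : 2 ≤ l := by nlinarith
    have h3 : (l - 2) ^ 2 ≤ Real.log x ^ 2 := by
      apply sq_le_sq'
      · linarith
      · exact h2
    have h4 : K * (l - 2) ^ 2 ≤ K * Real.log x ^ 2 := mul_le_mul_of_nonneg_left h3 (by linarith)
    have hl0 : 0 < l := by linarith
    have h5 : (1 + δ) * l ^ 2 < K * (l - 2) ^ 2 := by
      have h6 : 12 * (1 + K) * l ≤ δ * l ^ 2 := by nlinarith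
      have h7 : (1 + 2 * δ) * l ^ 2 ≤ K * l ^ 2 := mul_le_mul_of_nonneg_right hδ2 (sq_nonneg _)
      nlinarith
    have h7 : x < y * (1 / 3) + K * Real.log x ^ 2 := by linarith [h.2]
    have hc0 : (0 : ℝ) < ((t.1 + t.2 : ℕ) : ℝ) := by
      have := ht.1
      have : 0 < t.1 + t.2 := by omega
      exact_mod_cast this
    rw [Real.rpow_def_of_pos k1, ← Real.exp_add, ← hy]
    calc ((t.1 + t.2 : ℕ) : ℝ) = Real.exp x := by rw [hx, Real.exp_log hc0]
      _ < Real.exp (y * (1 / 3) + K * Real.log x ^ 2) := Real.exp_lt_exp.2 h7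

end Pool.Agent.Results.MP_14cf73_nt.SharpAlmostAll
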